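import Pool.Statements.S00101
import Pool.Agent.Lib.MP_2d3c11_ag.Main5
-- import your own Pool.Agent.* helpers here

set_option autoImplicit false
open Pool Pool.MP_2d3c11_ag

namespace Pool.Agent.S00101

/-- For prime p≥5, k algebraically closed of char p, every I≤A_{p+1} generated by a normal order-p subgroup and one element is the inertia group at infinity of an A_{p+1}-Galois extension of k(x) unramified over the affine line. -/
theorem result :
  ∀ p : ℕ, p.Prime → 5 ≤ p →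
  ∀ (k : Type) [Field k] [IsAlgClosed k] [CharP k p],
  ∀ I : Subgroup (alternatingGroup (Fin (p + 1))),
    (∃ P : Subgroup (alternatingGroup (Fin (p + 1))), ∃ g ∈ I,
      P ≤ I ∧ Nat.card P = p ∧ (∀ x ∈ I, ∀ y ∈ P, x * y * x⁻¹ ∈ P) ∧
      ∀ x ∈ I, ∃ n : ℤ, ∃ y ∈ P, x = g ^ n * y) →
    ∃ (L : Type) (_ : Field L) (_ : Algebra (RatFunc k) L),
      FiniteDimensional (RatFunc k) L ∧ IsGalois (RatFunc k) L ∧
      ∃ φ : (L ≃ₐ[RatFunc k] L) ≃* alternatingGroup (Fin (p + 1)),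
        (∀ (Γ : Type) (_ : LinearOrderedCommGroupWithZero Γ) (w : Valuation L Γ),
          (∀ c : k, c ≠ 0 →
            w (algebraMap (RatFunc k) L (algebraMap k (RatFunc k) c)) = 1) →
          w (algebraMap (RatFunc k) L RatFunc.X) ≤ 1 →
          ∀ σ : L ≃ₐ[RatFunc k] L, (∀ a : L, w a ≤ 1 → w (σ a - a) < 1) → σ = 1) ∧
        ∃ (Γ : Type) (_ : LinearOrderedCommGroupWithZero Γ) (w : Valuation L Γ),
          (∀ c : k, c ≠ 0 →
            w (algebraMap (RatFunc k) L (algebraMap k (RatFunc k) c)) = 1) ∧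
          1 < w (algebraMap (RatFunc k) L RatFunc.X) ∧
          ∀ σ : L ≃ₐ[RatFunc k] L,
            (φ σ ∈ I ↔ ∀ a : L, w a ≤ 1 → w (σ a - a) < 1) := by
  intro p hp hp5 k _ _ _ I hI
  have : Fact p.Prime := ⟨hp⟩
  obtain ⟨m, hm, β, hβ⟩ := Pool.Agent.Lib.MP_2d3c11_ag.exists_affine_model p hp5 I hI
  exact Pool.Agent.Lib.MP_2d3c11_ag.realised hp hp5 m hm I β hβ

end Pool.Agent.S00101
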