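import Pool.Statements.S00192
import Pool.Agent.Lib.MP_522d9f_ag.Poly

set_option autoImplicit false
open Pool Pool.MP_522d9f_ag

namespace Pool.Agent.S00192

open Pool.Agent.Lib.MP_522d9f_ag

/-- The negation of the preceding statement: For every algebraically closed field of characteristic 0, n≥1, nonempty finite point set W in projective n-space and r≥1, the least degree of a nonzero form vanishing to order rn−(n−1) at all points of W is at least r·α(W)+(r−1)(n−1). -/
theorem result :
    ¬ (∀ (k : Type) [Field k] [IsAlgClosed k] [CharZero k] (n : ℕ), 1 ≤ n →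
      ∀ (W : Finset (Projectivization k (Fin (n + 1) → k))), W.Nonempty →
        ∀ r : ℕ, 1 ≤ r → ∀ t : ℕ,
          (∃ f : MvPolynomial (Fin (n + 1)) k, f ≠ 0 ∧ f.IsHomogeneous t ∧
            f ∈ ⨅ P ∈ W, (Ideal.span {h : MvPolynomial (Fin (n + 1)) k |
                ∃ d : ℕ, h.IsHomogeneous d ∧ MvPolynomial.eval P.rep h = 0}) ^ ((r - 1) * n + 1)) →
          ∃ s : ℕ,
            (∃ g : MvPolynomial (Fin (n + 1)) k, g ≠ 0 ∧ g.IsHomogeneous s ∧
              g ∈ ⨅ P ∈ W, Ideal.span {h : MvPolynomial (Fin (n + 1)) k |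
                ∃ d : ℕ, h.IsHomogeneous d ∧ MvPolynomial.eval P.rep h = 0}) ∧
            r * s + (r - 1) * (n - 1) ≤ t) := by
  intro H
  classical
  obtain ⟨w₀, a₀, r₀, g₀, hw₀, ha₀, hr₀, hg₀, hdet₀⟩ := exists_padic
  let k := AlgebraicClosure ℚ_[139]
  have : CharZero k := charZero_of_injective_algebraMap (algebraMap ℚ_[139] k).injective
  let φ : ℤ_[139] →+* k := (algebraMap ℚ_[139] k).comp (algebraMap ℤ_[139] ℚ_[139])
  have hφ : Function.Injective φ :=
    (algebraMap ℚ_[139] k).injective.comp (IsFractionRing.injective ℤ_[139] ℚ_[139])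
  let w : k := φ w₀
  have hw : w ^ 2 + w + 1 = 0 := by
    have := congrArg φ hw₀
    simpa using this
  let Q : Fin 45 → k × k × k := fun i => mapP φ (pt w₀ a₀ r₀ g₀ i)
  have hQ : ∀ i, Q i = pt w (φ a₀) (φ r₀) (φ g₀) i := fun i => mapP_pt φ w₀ a₀ r₀ g₀ i
  have hdet : (evalMat Q).det ≠ 0 := by
    rw [show evalMat Q = (evalMat (pt w₀ a₀ r₀ g₀)).map φ from (evalMat_map φ _).symm]
    rw [← RingHom.mapMatrix_apply, ← RingHom.map_det]
    intro h
    exact hdet₀ (hφ (by rw [h, map_zero]))
  have hgood : ∀ i, Good w (Q i) := by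
    intro i
    rw [hQ]
    apply good_pt hw
    · have := congrArg φ ha₀; simpa [map_ofNat φ 3] using this
    · have := congrArg φ hr₀; simpa [map_ofNat φ 2] using this
    · have := congrArg φ hg₀; simpa using this
  have hne : ∀ i, vec (Q i) ≠ 0 := by
    intro i h
    apply hdet
    apply Matrix.det_eq_zero_of_row_eq_zero i
    intro m
    have h0 : (Q i).1 = 0 := congrFun h 0
    have h1 : (Q i).2.1 = 0 := congrFun h 1
    have h2 : (Q i).2.2 = 0 := congrFun h 2
    have h8 : ∀ m : Fin 45, 0 < (expo m).1 ∨ 0 < (expo m).2.1 ∨ 0 < (expo m).2.2 := by decide +kernel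
    simp only [evalMat, h0, h1, h2]
    rcases h8 m with h | h | h
    · rw [zero_pow h.ne']; ring
    · rw [zero_pow (n := (expo m).2.1) h.ne']; ring
    · rw [zero_pow (n := (expo m).2.2) h.ne']; ring
  let W : Finset (Projectivization k (Fin (2 + 1) → k)) :=
    Finset.univ.image fun i => Projectivization.mk k (vec (Q i)) (hne i)
  have hWne : W.Nonempty := ⟨_, Finset.mem_image_of_mem _ (Finset.mem_univ 0)⟩
  obtain ⟨s, ⟨g, hg0, hgh, hgm⟩, hs⟩ := H k 2 (by norm_num) W hWne 2 (by norm_num) 18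
    ⟨F18 w, F18_ne_zero w hw, F18_homog w, by
      rw [Ideal.mem_iInf]
      intro P
      rw [Ideal.mem_iInf]
      intro hP
      obtain ⟨i, -, rfl⟩ := Finset.mem_image.mp hP
      obtain ⟨c, hc⟩ := Projectivization.exists_smul_eq_mk_rep k (vec (Q i)) (hne i)
      apply F18_mem w (Q i) (hgood i)
      intro h d hd he
      apply Ideal.subset_span
      refine ⟨d, hd, ?_⟩
      rw [← hc, Units.smul_def, eval_smul_of_homog hd, he, mul_zero]⟩
  apply hg0
  apply eq_zero_of_le8 (s := s) (by omega) hgh Q hdet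
  intro i
  rw [Ideal.mem_iInf] at hgm
  have h1 := hgm (Projectivization.mk k (vec (Q i)) (hne i))
  rw [Ideal.mem_iInf] at h1
  have h2 := h1 (Finset.mem_image_of_mem _ (Finset.mem_univ i))
  obtain ⟨c, hc⟩ := Projectivization.exists_smul_eq_mk_rep k (vec (Q i)) (hne i)
  have h3 : Ideal.span {h : MvPolynomial (Fin (2 + 1)) k | ∃ d : ℕ, h.IsHomogeneous d ∧
      MvPolynomial.eval (Projectivization.mk k (vec (Q i)) (hne i)).rep h = 0} ≤
      RingHom.ker (MvPolynomial.eval (Projectivization.mk k (vec (Q i)) (hne i)).rep) := by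
    rw [Ideal.span_le]
    rintro h ⟨d, -, hd⟩
    exact hd
  have h4 := h3 h2
  rw [RingHom.mem_ker, ← hc, Units.smul_def, eval_smul_of_homog hgh] at h4
  rcases mul_eq_zero.mp h4 with h | h
  · exact absurd h (pow_ne_zero _ c.ne_zero)
  · exact h

end Pool.Agent.S00192
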