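import Pool.Statements.S00199
import Pool.Agent.Lib.MP_5c1225_ag.Full

set_option autoImplicit false
open Pool Pool.MP_5c1225_ag

namespace Pool.Agent.S00199

/-- For any nonempty finite set Y of points in complex projective n-space and m ≥ 1, the least degree of a nonzero polynomial vanishing to order m at all points of Y is at least m(α(I_Y)+n−1)/n. -/
theorem result :
    ∀ (n : ℕ), 1 ≤ n →
    ∀ (Y : Finset (Fin (n + 1) → ℂ)), Y.Nonempty → (∀ p ∈ Y, p ≠ 0) →
    ∀ (m : ℕ), 1 ≤ m →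
    ∀ f : MvPolynomial (Fin (n + 1)) ℂ,
      f ∈ (⨅ p ∈ Y,
        (RingHom.ker (MvPolynomial.eval₂Hom (Polynomial.C : ℂ →+* Polynomial ℂ)
          (fun i => Polynomial.C (p i) * Polynomial.X))) ^ m :
          Ideal (MvPolynomial (Fin (n + 1)) ℂ)) →
      f ≠ 0 →
      ∃ g : MvPolynomial (Fin (n + 1)) ℂ,
        g ∈ (⨅ p ∈ Y,
          RingHom.ker (MvPolynomial.eval₂Hom (Polynomial.C : ℂ →+* Polynomial ℂ)
            (fun i => Polynomial.C (p i) * Polynomial.X)) :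
            Ideal (MvPolynomial (Fin (n + 1)) ℂ)) ∧
        g ≠ 0 ∧
        m * (g.totalDegree + n - 1) ≤ n * f.totalDegree := by
  intro n _ Y hne _ m hm f hf h0
  obtain ⟨g, hg, hg0, hd⟩ := Pool.Agent.Lib.MP_5c1225_ag.chudnovsky n Y hne m hm f
    (by
      intro p hp
      have h1 : (⨅ p ∈ Y, Pool.Agent.Lib.MP_5c1225_ag.Ip p ^ m :
        Ideal (MvPolynomial (Fin (n + 1)) ℂ)) ≤ Pool.Agent.Lib.MP_5c1225_ag.Ip p ^ m :=
        iInf₂_le p hp
      exact h1 hf) h0
  refine ⟨g, ?_, hg0, hd⟩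
  simp only [Ideal.mem_iInf]
  exact hg

end Pool.Agent.S00199
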