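import Pool.Statements.S00678
import Pool.Agent.Lib.MP_0a5b83_al_B.Final

set_option autoImplicit false
open Pool Pool.MP_0a5b83_al

namespace Pool.Agent.S00678

/-- The negation of the preceding statement: For every variety of groups given by a set of laws, if its free group of rank n+1 embeds in its free group of rank n, then every countable group of the variety embeds in some group of the variety generated by n elements. -/
theorem result :
    ¬ (∀ (W : Set (FreeGroup ℕ)) (n : ℕ),
    (∃ φ : (FreeGroup (Fin (n+1)) ⧸ Subgroup.normalClosure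
              {x : FreeGroup (Fin (n+1)) | ∃ w ∈ W, ∃ f : ℕ → FreeGroup (Fin (n+1)), FreeGroup.lift f w = x})
            →* (FreeGroup (Fin n) ⧸ Subgroup.normalClosure
              {x : FreeGroup (Fin n) | ∃ w ∈ W, ∃ f : ℕ → FreeGroup (Fin n), FreeGroup.lift f w = x}),
        Function.Injective φ) →
    ∀ (G : Type) [Group G] [Countable G],
      (∀ w ∈ W, ∀ f : ℕ → G, FreeGroup.lift f w = 1) →
      ∃ (H : Type) (_ : Group H),
        (∀ w ∈ W, ∀ f : ℕ → H, FreeGroup.lift f w = 1) ∧
        (∃ s : Fin n → H, Subgroup.closure (Set.range s) = ⊤) ∧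
        ∃ ψ : G →* H, Function.Injective ψ) := by
  exact Pool.Agent.Lib.MP_0a5b83_al_B.final

end Pool.Agent.S00678
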