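import Pool.Statements.S02203
import Pool.Agent.Lib.MP_8a95e3_al.ZZ1

set_option autoImplicit false
open Pool Pool.MP_8a95e3_al

namespace Pool.Agent.S02203

/-- For every set of group laws in countably many variables that includes x^4 = 1, there is a finite set of laws satisfied by exactly the same groups; that is, every variety of groups of exponent dividing 4 is finitely based. -/
theorem result :
    ∀ S : Set (FreeGroup ℕ), (FreeGroup.of 0) ^ 4 ∈ S →
      ∃ T : Finset (FreeGroup ℕ), ∀ (G : Type) [Group G],
        ((∀ w ∈ S, ∀ f : ℕ → G, FreeGroup.lift f w = 1) ↔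
          (∀ w ∈ T, ∀ f : ℕ → G, FreeGroup.lift f w = 1)) := by
  intro S hS
  exact E4.Z.final S hS

end Pool.Agent.S02203
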