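import Pool.Statements.S02613
import Pool.Agent.Lib.MP_a8cdcd_al.Free

set_option autoImplicit false
open Pool Pool.MP_a8cdcd_al

namespace Pool.Agent.S02613

/-- The free alternative ring on 3 generators (free magma ring over ℤ modulo the ideal of alternative laws) is semiprime: any ideal whose products all vanish modulo the alternative-law ideal is itself contained in that ideal. -/
theorem result :
    ∀ J : TwoSidedIdeal (MonoidAlgebra ℤ (FreeMagma (Fin 3))),
      (∀ a b : MonoidAlgebra ℤ (FreeMagma (Fin 3)),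
          (a * a) * b - a * (a * b) ∈ J ∧ (b * a) * a - b * (a * a) ∈ J) →
      (∀ x ∈ J, ∀ y ∈ J, ∀ K : TwoSidedIdeal (MonoidAlgebra ℤ (FreeMagma (Fin 3))),
          (∀ a b : MonoidAlgebra ℤ (FreeMagma (Fin 3)),
              (a * a) * b - a * (a * b) ∈ K ∧ (b * a) * a - b * (a * a) ∈ K) →
          x * y ∈ K) →
      ∀ x ∈ J, ∀ K : TwoSidedIdeal (MonoidAlgebra ℤ (FreeMagma (Fin 3))),
          (∀ a b : MonoidAlgebra ℤ (FreeMagma (Fin 3)),
              (a * a) * b - a * (a * b) ∈ K ∧ (b * a) * a - b * (a * a) ∈ K) →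
          x ∈ K := by
  intro J _ hJ x hx K hK
  exact Pool.Agent.AltRing.main J hJ x hx K hK

end Pool.Agent.S02613
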