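import Pool.Statements.S02719
import Pool.Agent.Lib.MP_b0301d_al.Alg

set_option autoImplicit false
open Pool Pool.MP_b0301d_al

namespace Pool.Agent.S02719

/-- There is a prime, alternative, non-associative algebra over some commutative ring whose localization at its nonzero central elements is not a Cayley–Dickson algebra, i.e. it is not a Cayley–Dickson ring. -/
theorem result :
    ∃ (Φ : Type) (_ : CommRing Φ) (A : Type) (_ : NonUnitalNonAssocRing A) (_ : Module Φ A)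
      (_ : IsScalarTower Φ A A) (_ : SMulCommClass Φ A A),
      (∀ x y : A, (x * x) * y = x * (x * y) ∧ (y * x) * x = y * (x * x)) ∧
      (∀ I J : Submodule Φ A,
        (∀ a x : A, x ∈ I → a * x ∈ I ∧ x * a ∈ I) →
        (∀ a x : A, x ∈ J → a * x ∈ J ∧ x * a ∈ J) →
        (∀ x ∈ I, ∀ y ∈ J, x * y = 0) → I = ⊥ ∨ J = ⊥) ∧
      (∃ x y z : A, (x * y) * z ≠ x * (y * z)) ∧
      ¬ (∃ (F : Type) (_ : Field F) (C : Type) (_ : NonAssocRing C) (_ : Module F C)
          (_ : IsScalarTower F C C) (_ : SMulCommClass F C C),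
          (∀ x y : C, (x * x) * y = x * (x * y) ∧ (y * x) * x = y * (x * x)) ∧
          Module.finrank F C = 8 ∧
          (∀ c ∈ Set.center C, ∃ a : F, c = a • (1 : C)) ∧
          Nontrivial C ∧
          (∀ I : TwoSidedIdeal C, I = ⊥ ∨ I = ⊤) ∧
          (∃ x y z : C, (x * y) * z ≠ x * (y * z)) ∧
          ∃ φ : A →ₙ+* C, Function.Injective φ ∧
            (∀ z ∈ Set.center A, ∃ a : F, φ z = a • (1 : C)) ∧
            ∀ c : C, ∃ z ∈ Set.center A, z ≠ 0 ∧ ∃ k : A, φ z * c = φ k) := by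
  refine ⟨ZMod 3, inferInstance, Pool.Agent.Lib.MP_b0301d_al.A, inferInstance, inferInstance,
    inferInstance, inferInstance, ?_, Pool.Agent.Lib.MP_b0301d_al.A_prime,
    Pool.Agent.Lib.MP_b0301d_al.A_nonassoc, ?_⟩
  · intro x y
    refine ⟨Pool.Agent.Lib.MP_b0301d_al.A_alt x y, ?_⟩
    rw [Pool.Agent.Lib.MP_b0301d_al.A_comm (y * x) x, Pool.Agent.Lib.MP_b0301d_al.A_comm y x,
      Pool.Agent.Lib.MP_b0301d_al.A_comm y (x * x), Pool.Agent.Lib.MP_b0301d_al.A_alt x y]
  · rintro ⟨F, _, C, _, _, _, _, -, -, -, -, -, -, φ, -, -, h⟩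
    obtain ⟨z, hz, hz0, -⟩ := h 0
    exact hz0 (Pool.Agent.Lib.MP_b0301d_al.A_center z hz)

end Pool.Agent.S02719
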