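import Pool.Statements.S03133
import Pool.Agent.Lib.MP_d14a7e_al.Final

set_option autoImplicit false
open Pool Pool.MP_d14a7e_al

namespace Pool.Agent.S03133

/-- On a finite set, two clones that are each minimal among clones with idempotent linked 3- and 4-ary weak near-unanimity operations (bounded width), and that preserve exactly the same binary relations, are equal. -/
theorem result :
    ∀ (n : ℕ)
      (IsClone : (∀ k : ℕ, Set ((Fin k → Fin n) → Fin n)) → Prop)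
      (BW : (∀ k : ℕ, Set ((Fin k → Fin n) → Fin n)) → Prop)
      (Inv2 : (∀ k : ℕ, Set ((Fin k → Fin n) → Fin n)) → Set (Fin n × Fin n) → Prop),
      (∀ E : ∀ k : ℕ, Set ((Fin k → Fin n) → Fin n),
        IsClone E ↔
          ((∀ (k : ℕ) (i : Fin k), (fun x : Fin k → Fin n => x i) ∈ E k) ∧
           (∀ (k m : ℕ) (f : (Fin k → Fin n) → Fin n) (g : Fin k → (Fin m → Fin n) → Fin n),
              f ∈ E k → (∀ i, g i ∈ E m) →
              (fun x : Fin m → Fin n => f (fun i => g i x)) ∈ E m))) →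
      (∀ E : ∀ k : ℕ, Set ((Fin k → Fin n) → Fin n),
        BW E ↔
          ∃ v ∈ E 3, ∃ w ∈ E 4,
            (∀ a : Fin n, v ![a, a, a] = a) ∧
            (∀ a : Fin n, w ![a, a, a, a] = a) ∧
            (∀ x y : Fin n, v ![y, x, x] = v ![x, y, x] ∧ v ![x, y, x] = v ![x, x, y]) ∧
            (∀ x y : Fin n, w ![y, x, x, x] = w ![x, y, x, x] ∧
                w ![x, y, x, x] = w ![x, x, y, x] ∧ w ![x, x, y, x] = w ![x, x, x, y]) ∧
            (∀ x y : Fin n, v ![y, x, x] = w ![y, x, x, x])) →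
      (∀ (E : ∀ k : ℕ, Set ((Fin k → Fin n) → Fin n)) (R : Set (Fin n × Fin n)),
        Inv2 E R ↔
          ∀ (k : ℕ) (f : (Fin k → Fin n) → Fin n), f ∈ E k →
            ∀ x y : Fin k → Fin n, (∀ i, (x i, y i) ∈ R) → (f x, f y) ∈ R) →
      ∀ C D : ∀ k : ℕ, Set ((Fin k → Fin n) → Fin n),
        (IsClone C ∧ BW C ∧
          ∀ F : ∀ k : ℕ, Set ((Fin k → Fin n) → Fin n),
            IsClone F → BW F → (∀ k, F k ⊆ C k) → F = C) →
        (IsClone D ∧ BW D ∧
          ∀ F : ∀ k : ℕ, Set ((Fin k → Fin n) → Fin n),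
            IsClone F → BW F → (∀ k, F k ⊆ D k) → F = D) →
        (∀ R : Set (Fin n × Fin n), Inv2 C R ↔ Inv2 D R) →
        C = D := by
  intro n IsClone BW Inv2 h1 h2 h3 C D hC hD hinv
  have e1 : ∀ E, IsClone E ↔ Pool.Agent.BWC.IsCl E := h1
  have e2 : ∀ E, BW E ↔ Pool.Agent.BWC.HasBW E := h2
  have e3 : ∀ E R, Inv2 E R ↔ Pool.Agent.BWC.Inv2' E R := h3
  obtain ⟨hC1, hC2, hC3⟩ := hC
  obtain ⟨hD1, hD2, hD3⟩ := hD
  exact Pool.Agent.BWC.clones_eq ((e1 C).1 hC1) ((e2 C).1 hC2)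
    (fun F hF1 hF2 hF3 => hC3 F ((e1 F).2 hF1) ((e2 F).2 hF2) hF3)
    ((e1 D).1 hD1) ((e2 D).1 hD2)
    (fun F hF1 hF2 hF3 => hD3 F ((e1 F).2 hF1) ((e2 F).2 hF2) hF3)
    (fun R => (e3 C R).symm.trans ((hinv R).trans (e3 D R)))

end Pool.Agent.S03133
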