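-- Proof of frozen statement S03687.
import Pool.Statements.S03687
import Pool.Agent.Lib.MP_03548f_an.Uniform
import Pool.Agent.Lib.MP_03548f_an.Limit

set_option autoImplicit false
open MeasureTheory
open Pool Pool.MP_03548f_an

namespace Pool.Agent.S03687

open Pool.Agent.Lib.MP_03548f_an in
/-- the key estimate in terms of coarsened letters -/
theorem exists_joining (μ ν : Measure (ℕ → ℕ)) [IsProbabilityMeasure μ] [IsProbabilityMeasure ν]
    (hμ : MeasurePreserving sh μ μ) (hν : MeasurePreserving sh ν ν)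
    {m : ℕ} (f : ℕ → Fin m) {c : ℝ} (hc : 0 < c) (hcH : ∀ n : ℕ, c * n ≤ bent μ f n)
    {m' : ℕ} (g : ℕ → Fin m') {c' : ℝ} (hc' : 0 < c') (hcH' : ∀ n : ℕ, c' * n ≤ bent ν g n) :
    ∃ ξ : Measure ((ℕ → ℕ) × (ℕ → ℕ)), IsProbabilityMeasure ξ ∧
      MeasurePreserving (Prod.map sh sh) ξ ξ ∧ ξ.map Prod.fst = μ ∧ ξ.map Prod.snd = ν ∧
      ∃ (w : Fin m) (v : Fin m'),
        μ (co f 0 ⁻¹' {w}) * ν (co g 0 ⁻¹' {v}) < ξ ((co f 0 ⁻¹' {w}) ×ˢ (co g 0 ⁻¹' {v})) := by
  obtain ⟨w, s, hs, hws⟩ := exists_forward μ f hμ hc hcH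
  obtain ⟨v, s', hs', hvs⟩ := exists_backward ν g hν hc' hcH'
  have hX : ∀ n, Measurable (co f n) := measurable_co f
  let Y : ℕ → ℕ → (ℕ → ℕ) → Fin m' := fun N i => co g (N + 1 - 1 - i)
  have hY : ∀ N n, Measurable (Y N n) := fun N n => measurable_co g _
  let ξ : ℕ → Measure ((ℕ → ℕ) × (ℕ → ℕ)) := fun N => cpl μ ν (co f) (Y N) w v (N + 1)
  set S : Set (ℕ → ℕ) := co f 0 ⁻¹' {w} with hS
  set T : Set (ℕ → ℕ) := co g 0 ⁻¹' {v} with hT
  have hclS : IsClopen S :=
    (isClopen_discrete (f ⁻¹' {w})).preimage (continuous_apply (A := fun _ : ℕ => ℕ) 0)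
  have hclT : IsClopen T :=
    (isClopen_discrete (g ⁻¹' {v})).preimage (continuous_apply (A := fun _ : ℕ => ℕ) 0)
  have hC : IsClopen (S ×ˢ T) := hclS.prod hclT
  have hr : ∀ N k, k ≤ N → ENNReal.ofReal (μ.real S * ν.real T + s * s') ≤
      ξ N ((Prod.map sh sh)^[k] ⁻¹' (S ×ˢ T)) := by
    intro N k hk
    have hkN : k < N + 1 := Nat.lt_succ_of_le hk
    have h1 : (Prod.map sh sh)^[k] ⁻¹' (S ×ˢ T) =
        (co f k ⁻¹' {w}) ×ˢ (Y N (N + 1 - 1 - k) ⁻¹' {v}) := by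
      rw [Prod.map_iterate]
      ext p
      have h2 : N + 1 - 1 - (N + 1 - 1 - k) = k := by omega
      simp only [Set.mem_preimage, Set.mem_prod, Prod.map_fst, Prod.map_snd, hS, hT, co,
        sh_iterate, Set.mem_singleton_iff, Y, h2, zero_add]
    have hm : MeasurableSet ((co f k ⁻¹' {w}) ×ˢ (Y N (N + 1 - 1 - k) ⁻¹' {v})) :=
      (hX k (measurableSet_singleton w)).prod (hY N _ (measurableSet_singleton v))
    rw [h1, cpl_apply μ ν hX (hY N) w v (N + 1) hm,
      integral_dens_pair μ ν hX (hY N) w v hkN]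
    apply ENNReal.ofReal_le_ofReal
    have e1 : μ.real (co f k ⁻¹' {w}) = μ.real S := by
      have : co f k ⁻¹' {w} = sh^[k] ⁻¹' S := by
        ext x; simp [hS, co, sh_iterate]
      rw [this, real_preimage (hμ.iterate k) hclS.isClosed.measurableSet]
    have e2 : ν.real (Y N (N + 1 - 1 - k) ⁻¹' {v}) = ν.real T := by
      have h2 : N + 1 - 1 - (N + 1 - 1 - k) = k := by omega
      have : Y N (N + 1 - 1 - k) ⁻¹' {v} = sh^[k] ⁻¹' T := by
        ext x; simp only [Y, h2, Set.mem_preimage, hT, co, sh_iterate, zero_add]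
      rw [this, real_preimage (hν.iterate k) hclT.isClosed.measurableSet]
    have e3 : s ≤ mv μ (co f) w k := hws k
    have e4 : s' ≤ mv ν (Y N) v (N + 1 - 1 - k) :=
      mv_reversed ν g hν v (N := N + 1) (j := N + 1 - 1 - k) (by omega) (hvs _)
    rw [e1, e2]
    have : s * s' ≤ mv μ (co f) w k * mv ν (Y N) v (N + 1 - 1 - k) :=
      mul_le_mul e3 e4 hs'.le (hs.le.trans e3)
    linarith
  obtain ⟨ξ', hp, hinv, hf, hsn, hle⟩ := exists_stationary continuous_sh continuous_sh μ ν hμ hν ξ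
    (fun N => cpl_fst μ ν hX (hY N) w v (N + 1)) (fun N => cpl_snd μ ν hX (hY N) w v (N + 1)) hC
    (ENNReal.ofReal (μ.real S * ν.real T + s * s')) hr
  refine ⟨ξ', hp, hinv, hf, hsn, w, v, lt_of_lt_of_le ?_ hle⟩
  have h5 : μ S * ν T = ENNReal.ofReal (μ.real S * ν.real T) := by
    rw [ENNReal.ofReal_mul measureReal_nonneg, ofReal_measureReal, ofReal_measureReal]
  change μ S * ν T < _
  rw [h5]
  have h6 : 0 < s * s' := mul_pos hs hs'
  have h7 : 0 ≤ μ.real S * ν.real T := mul_nonneg measureReal_nonneg measureReal_nonneg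
  exact (ENNReal.ofReal_lt_ofReal_iff (by linarith)).mpr (by linarith)

/-- For any two shift-invariant probability measures on sequences over countable alphabets, both of positive entropy, there is a shift-invariant joining under which some pair of first-coordinate events a, b fails the product rule. -/
theorem result :
    ∀ (μ ν : Measure (ℕ → ℕ)),
      IsProbabilityMeasure μ → IsProbabilityMeasure ν →
      MeasurePreserving (fun (x : ℕ → ℕ) (n : ℕ) => x (n + 1)) μ μ →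
      MeasurePreserving (fun (x : ℕ → ℕ) (n : ℕ) => x (n + 1)) ν ν →
      (∃ m : ℕ, ∃ f : ℕ → Fin m, ∃ c : ℝ, 0 < c ∧ ∀ n : ℕ,
        c * (n : ℝ) ≤ ∑ w : Fin n → Fin m,
          Real.negMulLog ((μ {x : ℕ → ℕ | ∀ i : Fin n, f (x i.val) = w i}).toReal)) →
      (∃ m : ℕ, ∃ f : ℕ → Fin m, ∃ c : ℝ, 0 < c ∧ ∀ n : ℕ,
        c * (n : ℝ) ≤ ∑ w : Fin n → Fin m,
          Real.negMulLog ((ν {x : ℕ → ℕ | ∀ i : Fin n, f (x i.val) = w i}).toReal)) →
      ∃ ξ : Measure ((ℕ → ℕ) × (ℕ → ℕ)),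
        IsProbabilityMeasure ξ ∧
        MeasurePreserving
          (Prod.map (fun (x : ℕ → ℕ) (n : ℕ) => x (n + 1))
                    (fun (x : ℕ → ℕ) (n : ℕ) => x (n + 1))) ξ ξ ∧
        ξ.map Prod.fst = μ ∧ ξ.map Prod.snd = ν ∧
        ∃ a b : ℕ,
          ξ ({p : (ℕ → ℕ) × (ℕ → ℕ) | p.1 0 = a} ∩ {p | p.2 0 = b}) ≠
            μ {x : ℕ → ℕ | x 0 = a} * ν {y : ℕ → ℕ | y 0 = b} := by
  intro μ ν hμp hνp hμ hν h1 h2
  obtain ⟨m, f, c, hc, hcH⟩ := h1
  obtain ⟨m', g, c', hc', hcH'⟩ := h2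
  obtain ⟨ξ, hp, hinv, hf, hs, w, v, hlt⟩ :=
    exists_joining μ ν hμ hν f hc hcH g hc' hcH'
  refine ⟨ξ, hp, hinv, hf, hs, ?_⟩
  by_contra hcon
  push Not at hcon
  -- the law of the pair of zero coordinates would be a product
  let ev : (ℕ → ℕ) × (ℕ → ℕ) → ℕ × ℕ := fun p => (p.1 0, p.2 0)
  have hev : Measurable ev := by fun_prop
  have h0 : Measurable (fun x : ℕ → ℕ => x 0) := by fun_prop
  have key : ξ.map ev = (μ.map (fun x : ℕ → ℕ => x 0)).prod (ν.map (fun y : ℕ → ℕ => y 0)) := by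
    have : IsProbabilityMeasure (μ.map (fun x : ℕ → ℕ => x 0)) :=
      Measure.isProbabilityMeasure_map h0.aemeasurable
    have : IsProbabilityMeasure (ν.map (fun x : ℕ → ℕ => x 0)) :=
      Measure.isProbabilityMeasure_map h0.aemeasurable
    refine Measure.ext_of_singleton fun ab => ?_
    obtain ⟨a, b⟩ := ab
    rw [Measure.map_apply hev (measurableSet_singleton _), ← Set.singleton_prod_singleton,
      Measure.prod_prod, Measure.map_apply h0 (measurableSet_singleton _),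
      Measure.map_apply h0 (measurableSet_singleton _)]
    have e := hcon a b
    have e1 : ({p : (ℕ → ℕ) × (ℕ → ℕ) | p.1 0 = a} ∩ {p | p.2 0 = b}) = ev ⁻¹' ({a} ×ˢ {b}) := by
      ext p
      simp [ev]
    rw [e1] at e
    exact e
  have h3 := congrArg (fun m => m ((f ⁻¹' {w}) ×ˢ (g ⁻¹' {v}))) key
  simp only at h3
  have : IsProbabilityMeasure (μ.map (fun x : ℕ → ℕ => x 0)) :=
    Measure.isProbabilityMeasure_map h0.aemeasurable
  have : IsProbabilityMeasure (ν.map (fun x : ℕ → ℕ => x 0)) :=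
    Measure.isProbabilityMeasure_map h0.aemeasurable
  rw [Measure.map_apply hev (MeasurableSet.of_discrete), Measure.prod_prod,
    Measure.map_apply h0 (MeasurableSet.of_discrete),
    Measure.map_apply h0 (MeasurableSet.of_discrete)] at h3
  exact absurd h3 (ne_of_gt hlt)

end Pool.Agent.S03687
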