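import Pool.Statements.S04091
import Pool.Agent.Lib.MP_263cac_full.Fin2

set_option autoImplicit false
open Pool Pool.MP_263cac_an

namespace Pool.Agent.S04091

/-- For every C*-algebra A and every n ≥ 1, every bounded n-linear Hochschild cocycle from A into its dual A* is the coboundary of a bounded (n−1)-cochain, i.e. the simplicial cohomology H^n(A,A*) vanishes. -/
theorem result :
    ∀ (A : Type) [NonUnitalCStarAlgebra A] (m : ℕ)
      (T : ContinuousMultilinearMap ℂ (fun _ : Fin (m + 1) => A) (A →L[ℂ] ℂ)),
      (∀ (a : Fin (m + 1 + 1) → A) (b : A),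
        T (Fin.tail a) (b * a 0)
          + ∑ i : Fin (m + 1), (-1 : ℂ) ^ ((i : ℕ) + 1) *
              T (fun j : Fin (m + 1) =>
                  if (j : ℕ) < (i : ℕ) then a (Fin.castSucc j)
                  else if (j : ℕ) = (i : ℕ) then a (Fin.castSucc j) * a (Fin.succ j)
                  else a (Fin.succ j)) b
          + (-1 : ℂ) ^ (m + 1 + 1) * T (Fin.init a) (a (Fin.last (m + 1)) * b) = 0) →
      ∃ S : ContinuousMultilinearMap ℂ (fun _ : Fin m => A) (A →L[ℂ] ℂ),
        ∀ (a : Fin (m + 1) → A) (b : A),
          T a b =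
            S (Fin.tail a) (b * a 0)
              + ∑ i : Fin m, (-1 : ℂ) ^ ((i : ℕ) + 1) *
                  S (fun j : Fin m =>
                      if (j : ℕ) < (i : ℕ) then a (Fin.castSucc j)
                      else if (j : ℕ) = (i : ℕ) then a (Fin.castSucc j) * a (Fin.succ j)
                      else a (Fin.succ j)) b
              + (-1 : ℂ) ^ (m + 1) * S (Fin.init a) (a (Fin.last m) * b) := by
  exact Pool.MP263F.final_statement

end Pool.Agent.S04091
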