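import Pool.Statements.S05150
import Pool.Agent.Lib.MP_7cb37e_an.Main

set_option autoImplicit false
open Pool Pool.MP_7cb37e_an

namespace Pool.Agent.S05150

/-- The negation of the preceding statement: For compact X in ℂ, if R(X) (uniform closure of rational functions with poles off X) has no nonzero bounded point derivation at any point, then for every closed F ⊆ X and x ∉ F some f in R(X) has f(x)=1 and f=0 on F. -/
theorem result :
    ¬ (∀ (X : Set ℂ), IsCompact X →
      ∀ R : Set C(X, ℂ),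
        R = closure {g : C(X, ℂ) | ∃ p q : Polynomial ℂ,
              (∀ z ∈ X, q.eval z ≠ 0) ∧ ∀ z : X, g z = p.eval (z : ℂ) / q.eval (z : ℂ)} →
        (∀ (x : X) (D : C(X, ℂ) → ℂ),
            (∀ f ∈ R, ∀ g ∈ R, D (f + g) = D f + D g) →
            (∀ c : ℂ, ∀ f ∈ R, D (c • f) = c * D f) →
            (∀ f ∈ R, ∀ g ∈ R, D (f * g) = f x * D g + g x * D f) →
            (∃ C : ℝ, ∀ f ∈ R, ∀ M : ℝ, (∀ z : X, ‖f z‖ ≤ M) → ‖D f‖ ≤ C * M) →
            ∀ f ∈ R, D f = 0) →
        ∀ F : Set X, IsClosed F → ∀ x : X, x ∉ F →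
          ∃ f ∈ R, f x = 1 ∧ ∀ y ∈ F, f y = 0) := by
  intro hall
  obtain ⟨L, η, S, hB, hhalf, hL, h2, hT, hsmall, hprop⟩ :=
    Pool.Agent.Lib.MP_7cb37e_an.params_exist
  have hc : IsCompact (Pool.Agent.Lib.MP_7cb37e_an.XX L η) :=
    Pool.Agent.Lib.MP_7cb37e_an.isCompact_XX
  have : CompactSpace (Pool.Agent.Lib.MP_7cb37e_an.XX L η) := isCompact_iff_compactSpace.1 hc
  have h2X : (2 : ℂ) ∈ Pool.Agent.Lib.MP_7cb37e_an.XX L η := by
    have := Pool.Agent.Lib.MP_7cb37e_an.seg_mem_XX hB (t := 2) (by norm_num) le_rfl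
    simpa using this
  have key := hall (Pool.Agent.Lib.MP_7cb37e_an.XX L η) hc _ rfl
    (by
      intro x D hadd hsmul hmul hbd
      apply Pool.Agent.Lib.MP_7cb37e_an.bpd_zero x D hadd hsmul hmul hbd
      intro K
      rcases lt_or_eq_of_le (show ‖(x : ℂ)‖ ≤ 3 by simpa using x.2.1) with h3 | h3
      · exact Pool.Agent.Lib.MP_7cb37e_an.exists_poles_interior hB hL h2 hT x.2 h3 K
      · exact Pool.Agent.Lib.MP_7cb37e_an.exists_poles_boundary h3 K)
    {z | (z : ℂ).im = 0 ∧ 0 ≤ (z : ℂ).re ∧ (z : ℂ).re ≤ 1}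
    (by
      have h1 : Continuous (fun z : Pool.Agent.Lib.MP_7cb37e_an.XX L η => (z : ℂ).im) :=
        Complex.continuous_im.comp continuous_subtype_val
      have h3 : Continuous (fun z : Pool.Agent.Lib.MP_7cb37e_an.XX L η => (z : ℂ).re) :=
        Complex.continuous_re.comp continuous_subtype_val
      exact (isClosed_eq h1 continuous_const).inter
        ((isClosed_le continuous_const h3).inter (isClosed_le h3 continuous_const)))
    ⟨2, h2X⟩
    (by
      rintro ⟨-, -, h3⟩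
      norm_num at h3)
  obtain ⟨f, hf, hf1, hf0⟩ := key
  have h4 := Pool.Agent.Lib.MP_7cb37e_an.vanish_propagates hB hhalf hsmall hprop f hf
    (fun z hz1 hz2 hz3 => hf0 z ⟨hz1, hz2, hz3⟩) ⟨2, h2X⟩ rfl
  rw [hf1] at h4
  exact one_ne_zero h4

end Pool.Agent.S05150
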