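import Pool.Statements.S05152
import Pool.Agent.Lib.MP_7cf0e7_an.Main

set_option autoImplicit false
open Pool Pool.MP_7cf0e7_an

namespace Pool.Agent.S05152

/-- The negation of the preceding statement: For every real Banach space X, exactly one holds: some continuous quadratic form x ↦ B(x,x) is positive at every nonzero x, or every continuous quadratic form vanishes on some non-separable linear subspace of X. -/
theorem result :
    ¬ (∀ (X : Type) [NormedAddCommGroup X] [NormedSpace ℝ X] [CompleteSpace X],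
      Xor' (∃ B : X →L[ℝ] X →L[ℝ] ℝ, ∀ x : X, x ≠ 0 → 0 < B x x)
        (∀ B : X →L[ℝ] X →L[ℝ] ℝ, ∃ V : Submodule ℝ X,
          ¬ TopologicalSpace.IsSeparable (V : Set X) ∧ ∀ x ∈ V, B x x = 0)) := by
  intro h
  obtain ⟨X, i1, i2, i3, hpos, A, hA⟩ := Pool.Agent.Lib.MP_7cf0e7_an.main
  rcases h X with ⟨h1, -⟩ | ⟨h1, -⟩
  · exact hpos h1
  · obtain ⟨V, hV1, hV2⟩ := h1 A
    exact hV1 (hA V hV2)

end Pool.Agent.S05152
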