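import Pool.Statements.S05555
import Pool.Agent.Lib.MP_9d6c91_an.Final

set_option autoImplicit false
open Pool Pool.MP_9d6c91_an

namespace Pool.Agent.S05555

/-- For 0<α<1, every nonzero closed ideal I of the Gevrey class G_α on the disc equals the set of f in G_α divisible by the gcd S_I of inner parts of I with Zᵏ(I) ⊆ Zᵏ(f) for all k ≤ ∞. -/
theorem result :
  ∀ α : ℝ, 0 < α → α < 1 →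
  ∀ I : Set (ℂ → ℂ),
    (∀ f ∈ I, DifferentiableOn ℂ f (Metric.ball (0:ℂ) 1) ∧
      ∃ C Q : ℝ, ∀ n : ℕ, ∀ z ∈ Metric.ball (0:ℂ) 1,
        ‖iteratedDeriv n f z‖ ≤ C * Q ^ n * (n.factorial : ℝ) * (n : ℝ) ^ ((n : ℝ) / α)) →
    (0 : ℂ → ℂ) ∈ I →
    (∀ f ∈ I, ∀ g ∈ I, f + g ∈ I) →
    (∀ f ∈ I, ∀ g : ℂ → ℂ, (DifferentiableOn ℂ g (Metric.ball (0:ℂ) 1) ∧
      ∃ C Q : ℝ, ∀ n : ℕ, ∀ z ∈ Metric.ball (0:ℂ) 1,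
        ‖iteratedDeriv n g z‖ ≤ C * Q ^ n * (n.factorial : ℝ) * (n : ℝ) ^ ((n : ℝ) / α)) →
      g * f ∈ I) →
    (∀ Q : ℝ, 0 < Q → ∀ (u : ℕ → ℂ → ℂ) (f : ℂ → ℂ),
      (∀ m, u m ∈ I) →
      DifferentiableOn ℂ f (Metric.ball (0:ℂ) 1) →
      (∃ C : ℝ, ∀ n : ℕ, ∀ z ∈ Metric.ball (0:ℂ) 1,
        ‖iteratedDeriv n f z‖ ≤ C * Q ^ n * (n.factorial : ℝ) * (n : ℝ) ^ ((n : ℝ) / α)) →
      (∀ m, ∃ C : ℝ, ∀ n : ℕ, ∀ z ∈ Metric.ball (0:ℂ) 1,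
        ‖iteratedDeriv n (u m) z‖ ≤ C * Q ^ n * (n.factorial : ℝ) * (n : ℝ) ^ ((n : ℝ) / α)) →
      (∀ ε : ℝ, 0 < ε → ∃ M : ℕ, ∀ m ≥ M, ∀ n : ℕ, ∀ z ∈ Metric.ball (0:ℂ) 1,
        ‖iteratedDeriv n (u m) z - iteratedDeriv n f z‖ ≤
          ε * Q ^ n * (n.factorial : ℝ) * (n : ℝ) ^ ((n : ℝ) / α)) →
      f ∈ I) →
    (∃ f ∈ I, ∃ z ∈ Metric.ball (0:ℂ) 1, f z ≠ 0) →
    ∃ S : ℂ → ℂ,
      (DifferentiableOn ℂ S (Metric.ball (0:ℂ) 1) ∧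
        (∀ z ∈ Metric.ball (0:ℂ) 1, ‖S z‖ ≤ 1) ∧
        ∀ᵐ θ : ℝ ∂MeasureTheory.volume, ∃ w : ℂ, ‖w‖ = 1 ∧
          Filter.Tendsto (fun r : ℝ => S ((r : ℂ) * Complex.exp ((θ : ℂ) * Complex.I)))
            (nhdsWithin 1 (Set.Iio 1)) (nhds w)) ∧
      (∀ f ∈ I, ∃ h : ℂ → ℂ, DifferentiableOn ℂ h (Metric.ball (0:ℂ) 1) ∧
        (∃ B : ℝ, ∀ z ∈ Metric.ball (0:ℂ) 1, ‖h z‖ ≤ B) ∧
        ∀ z ∈ Metric.ball (0:ℂ) 1, f z = S z * h z) ∧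
      (∀ T : ℂ → ℂ,
        (DifferentiableOn ℂ T (Metric.ball (0:ℂ) 1) ∧
          (∀ z ∈ Metric.ball (0:ℂ) 1, ‖T z‖ ≤ 1) ∧
          ∀ᵐ θ : ℝ ∂MeasureTheory.volume, ∃ w : ℂ, ‖w‖ = 1 ∧
            Filter.Tendsto (fun r : ℝ => T ((r : ℂ) * Complex.exp ((θ : ℂ) * Complex.I)))
              (nhdsWithin 1 (Set.Iio 1)) (nhds w)) →
        (∀ f ∈ I, ∃ h : ℂ → ℂ, DifferentiableOn ℂ h (Metric.ball (0:ℂ) 1) ∧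
          (∃ B : ℝ, ∀ z ∈ Metric.ball (0:ℂ) 1, ‖h z‖ ≤ B) ∧
          ∀ z ∈ Metric.ball (0:ℂ) 1, f z = T z * h z) →
        ∃ h : ℂ → ℂ, DifferentiableOn ℂ h (Metric.ball (0:ℂ) 1) ∧
          (∃ B : ℝ, ∀ z ∈ Metric.ball (0:ℂ) 1, ‖h z‖ ≤ B) ∧
          ∀ z ∈ Metric.ball (0:ℂ) 1, S z = T z * h z) ∧
      ∀ f : ℂ → ℂ, f ∈ I ↔
        ((DifferentiableOn ℂ f (Metric.ball (0:ℂ) 1) ∧
          ∃ C Q : ℝ, ∀ n : ℕ, ∀ z ∈ Metric.ball (0:ℂ) 1,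
            ‖iteratedDeriv n f z‖ ≤ C * Q ^ n * (n.factorial : ℝ) * (n : ℝ) ^ ((n : ℝ) / α)) ∧
         (∃ h : ℂ → ℂ, DifferentiableOn ℂ h (Metric.ball (0:ℂ) 1) ∧
          (∃ B : ℝ, ∀ z ∈ Metric.ball (0:ℂ) 1, ‖h z‖ ≤ B) ∧
          ∀ z ∈ Metric.ball (0:ℂ) 1, f z = S z * h z) ∧
         ∀ k : ℕ∞, ∀ z ∈ Metric.closedBall (0:ℂ) 1,
          (∀ g ∈ I, ∀ j : ℕ, (j : ℕ∞) ≤ k →
            Filter.Tendsto (iteratedDeriv j g) (nhdsWithin z (Metric.ball (0:ℂ) 1)) (nhds 0)) →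
          ∀ j : ℕ, (j : ℕ∞) ≤ k →
            Filter.Tendsto (iteratedDeriv j f) (nhdsWithin z (Metric.ball (0:ℂ) 1)) (nhds 0)) := by
  intro α hα hα1 I hI h0 hadd hmul hcl hne
  exact MP_9d6c91_an.final hα hα1 I hI h0 hadd hmul hcl hne


end Pool.Agent.S05555
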