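import Pool.Statements.S05575
import Pool.Agent.Lib.MP_9ebc94_an.Final

set_option autoImplicit false
open Pool Pool.MP_9ebc94_an

namespace Pool.Agent.S05575

/-- For a bounded connected Lipschitz planar domain, if polynomial Steklov eigenfunctions (weak sense) have traces spanning a dense subspace of L² of the boundary, equivalently every Steklov eigenfunction is a polynomial, then the domain is an open disk. -/
theorem result :
  ∀ Ω : Set (EuclideanSpace ℝ (Fin 2)),
    IsOpen Ω → IsConnected Ω → Bornology.IsBounded Ω →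
    (∀ x ∈ frontier Ω, ∃ R : EuclideanSpace ℝ (Fin 2) ≃ₗᵢ[ℝ] EuclideanSpace ℝ (Fin 2),
        ∃ r : ℝ, 0 < r ∧ ∃ f : ℝ → ℝ, (∃ K, LipschitzWith K f) ∧
          Ω ∩ Metric.ball x r = Metric.ball x r ∩ {y | f (R y 0) < R y 1}) →
    (∀ g : EuclideanSpace ℝ (Fin 2) → ℝ,
       MeasureTheory.MemLp g 2
         ((MeasureTheory.Measure.hausdorffMeasure (1 : ℝ)).restrict (frontier Ω)) →
       ∀ ε : ℝ, 0 < ε →
         ∃ Q ∈ Submodule.span ℝ
             {P : MvPolynomial (Fin 2) ℝ | ∃ σ : ℝ,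
               ∀ v : EuclideanSpace ℝ (Fin 2) → ℝ, ContDiff ℝ 1 v → HasCompactSupport v →
                 ∫ y in Ω, @inner ℝ _ _
                     (gradient (fun z => MvPolynomial.eval (fun i => z i) P) y)
                     (gradient v y)
                   = σ * ∫ y in frontier Ω, MvPolynomial.eval (fun i => y i) P * v y
                       ∂(MeasureTheory.Measure.hausdorffMeasure (1 : ℝ))},
           MeasureTheory.eLpNorm (fun y => g y - MvPolynomial.eval (fun i => y i) Q) 2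
               ((MeasureTheory.Measure.hausdorffMeasure (1 : ℝ)).restrict (frontier Ω))
             < ENNReal.ofReal ε) →
    ∃ c : EuclideanSpace ℝ (Fin 2), ∃ r : ℝ, Ω = Metric.ball c r := by
  intro Ω hΩo hconn hb hchart hdens
  have hch : ∀ x ∈ frontier Ω, Nonempty (Lib.MP_9ebc94_an.Chart Ω x) := by
    intro x hx
    obtain ⟨R, r, hr, f, ⟨K, hK⟩, h⟩ := hchart x hx
    exact ⟨⟨R, r, f, K, hr, hK, h⟩⟩
  have D : Lib.MP_9ebc94_an.Dom Ω :=
    ⟨hΩo, hb, Lib.MP_9ebc94_an.measure_frontier_lt_top hΩo hb hch⟩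
  have hne := hconn.nonempty
  apply Lib.MP_9ebc94_an.main_disk D hne hch
  intro g hg ε hε
  obtain ⟨Q, hQ, h⟩ := hdens g hg ε hε
  obtain ⟨q, hq, hq2⟩ := Lib.MP_9ebc94_an.span_conv hΩo hne hQ
  refine ⟨q, hq, ?_⟩
  rw [← hq2]
  exact h

end Pool.Agent.S05575
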