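import Pool.Statements.S05596
import Pool.Agent.Lib.MP_9faca0_an.StepC

set_option autoImplicit false
open MeasureTheory
open Pool Pool.MP_9faca0_an

namespace Pool.Agent.S05596

/-- The negation of the preceding statement: For every measurable set E of positive measure in (0,2π] there is c>0 such that for every nonempty finite set K of nonnegative integers, the integral over E of the modulus of the sum of exp(ikt) over k in K is at least c. -/
theorem result :
    ¬ (∀ E : Set ℝ, E ⊆ Set.Ioc 0 (2 * Real.pi) → MeasurableSet E → 0 < volume E →
      ∃ c : ℝ, 0 < c ∧ ∀ K : Finset ℕ, K.Nonempty →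
        c ≤ ∫ t in E, ‖∑ k ∈ K, Complex.exp ((k : ℂ) * (t : ℂ) * Complex.I)‖) :=
  Pool.Agent.Konyagin.final

end Pool.Agent.S05596
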