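import Pool.Statements.S05926
import Pool.Agent.Lib.MP_b9c6dd_an.X.Result

/-!
# MP_b9c6dd_an: a counterexample (frozen negation S05926)

There are a unital C*-algebra `A` with dense invertible elements, an automorphism `α` of Rokhlin dimension
at most one with commuting towers, and a simple model `B` of the crossed product whose invertible
elements are not dense.

Files (in `Pool/Agent/Lib/MP_b9c6dd_an`):
* `X/A`: from a tower of C*-algebras `D i`, with three connecting maps each, to the counterexample. `A` is the closure
  of the algebra of bounded sequences on the integers which are coherent for the balanced ternary tilings, `α` is the shift.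
* `X/E`: construction of the tower; `D i = C(X i, B(E i))`, where `X (i + 1)` is a product of copies of `X i` and a real
  projective space, with point evaluations twisted by Clifford matrices.
* `BU`: a Borsuk-Ulam theorem for products of cubes with antipodal identifications, used for the obstruction.
* The theorem that stable rank one of `B` implies the domination property of `α` is `CP.DP_of_dense` (`CvFinal`).
-/

set_option autoImplicit false
open Pool Pool.MP_b9c6dd_an

namespace Pool.Agent.S05926

/-- The negation of the preceding statement: For every unital C*-algebra A with dense invertibles and automorphism α of finite Rokhlin dimension with commuting towers, any model of the crossed product of A by α (via a gauge-invariant covariant pair) that is simple has dense invertibles. -/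
theorem result :
    ¬ (∀ (A : Type) [CStarAlgebra A] (α : A ≃⋆ₐ[ℂ] A),
    Dense {x : A | IsUnit x} →
    (∃ d : ℕ, ∀ (F : Finset A) (ε : ℝ), 0 < ε → ∀ q : ℕ,
      ∃ f : Fin (d + 1) → Fin (q + 1) → A,
        (∀ l j, (∃ g : A, f l j = star g * g) ∧ ‖f l j‖ ≤ 1) ∧
        (∀ l j k, j ≠ k → ‖f l j * f l k‖ < ε) ∧
        (∀ l j, ‖α (f l j) - f l (j + 1)‖ < ε) ∧
        ‖(∑ l, ∑ j, f l j) - 1‖ < ε ∧
        (∀ l j, ∀ a ∈ F, ‖f l j * a - a * f l j‖ < ε) ∧
        (∀ l m j k, ‖f l j * f m k - f m k * f l j‖ < ε)) →
    ∀ (B : Type) [CStarAlgebra B] (ι : A →⋆ₐ[ℂ] B) (u : B),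
      Function.Injective ι →
      u ∈ unitary B →
      (∀ a : A, u * ι a * star u = ι (α a)) →
      (StarAlgebra.adjoin ℂ (Set.range (ι : A → B) ∪ {u})).topologicalClosure = ⊤ →
      (∀ z : ℂ, ‖z‖ = 1 →
        ∃ γ : B →⋆ₐ[ℂ] B, (∀ a : A, γ (ι a) = ι a) ∧ γ u = z • u) →
      IsSimpleRing B →
      Dense {x : B | IsUnit x}) :=
  Pool.Agent.B9x.not_main_aux

end Pool.Agent.S05926
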