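import Pool.Statements.S06166
-- import your own Pool.Agent.* helpers here
import Pool.Agent.Lib.MP_cc6c48_an.LimSup

set_option autoImplicit false
open Pool Pool.MP_cc6c48_an

namespace Pool.Agent.S06166

/-- The negation of the preceding statement: For every Apollonian packing P and every Möbius group preserving P whose limit set is the closure of P, the orbit of any circle separating the limit set is either closed or dense in the space of circles meeting the limit set. -/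
theorem result :
    ¬ (∀ (P : Set (Set (OnePoint ℂ))),
  (∃ C₁ C₂ C₃ C₄ : Set (OnePoint ℂ),
    (∃ g : Matrix.GeneralLinearGroup (Fin 2) ℂ, C₁ = (fun w : OnePoint ℂ => g • w) '' (insert (OnePoint.infty : OnePoint ℂ) (Set.range (fun x : ℝ => OnePoint.some (x : ℂ))))) ∧
    (∃ g : Matrix.GeneralLinearGroup (Fin 2) ℂ, C₂ = (fun w : OnePoint ℂ => g • w) '' (insert (OnePoint.infty : OnePoint ℂ) (Set.range (fun x : ℝ => OnePoint.some (x : ℂ))))) ∧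
    (∃ g : Matrix.GeneralLinearGroup (Fin 2) ℂ, C₃ = (fun w : OnePoint ℂ => g • w) '' (insert (OnePoint.infty : OnePoint ℂ) (Set.range (fun x : ℝ => OnePoint.some (x : ℂ))))) ∧
    (∃ g : Matrix.GeneralLinearGroup (Fin 2) ℂ, C₄ = (fun w : OnePoint ℂ => g • w) '' (insert (OnePoint.infty : OnePoint ℂ) (Set.range (fun x : ℝ => OnePoint.some (x : ℂ))))) ∧
    (∃! p, p ∈ C₁ ∩ C₂) ∧ (∃! p, p ∈ C₁ ∩ C₃) ∧ (∃! p, p ∈ C₁ ∩ C₄) ∧
    (∃! p, p ∈ C₂ ∩ C₃) ∧ (∃! p, p ∈ C₂ ∩ C₄) ∧ (∃! p, p ∈ C₃ ∩ C₄) ∧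
    C₁ ∩ C₂ ∩ C₃ = ∅ ∧ C₁ ∩ C₂ ∩ C₄ = ∅ ∧ C₁ ∩ C₃ ∩ C₄ = ∅ ∧ C₂ ∩ C₃ ∩ C₄ = ∅ ∧
    P = ⋂₀ {F : Set (Set (OnePoint ℂ)) | C₁ ∈ F ∧ C₂ ∈ F ∧ C₃ ∈ F ∧ C₄ ∈ F ∧
      ∀ S ∈ F, ∀ T ∈ F, ∀ U ∈ F, ∀ V : Set (OnePoint ℂ),
        (∃ g : Matrix.GeneralLinearGroup (Fin 2) ℂ, V = (fun w : OnePoint ℂ => g • w) '' (insert (OnePoint.infty : OnePoint ℂ) (Set.range (fun x : ℝ => OnePoint.some (x : ℂ))))) →
        (∃! p, p ∈ S ∩ T) → (∃! p, p ∈ T ∩ U) → (∃! p, p ∈ S ∩ U) → S ∩ T ∩ U = ∅ →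
        (∃! p, p ∈ V ∩ S) → (∃! p, p ∈ V ∩ T) → (∃! p, p ∈ V ∩ U) → V ∈ F}) →
  ∀ Γ : Subgroup (Matrix.GeneralLinearGroup (Fin 2) ℂ),
  (∀ g ∈ Γ, ∀ S : Set (OnePoint ℂ), S ∈ P ↔ (fun w : OnePoint ℂ => g • w) '' S ∈ P) →
  (∀ z : OnePoint ℂ, derivedSet {w : OnePoint ℂ | ∃ g ∈ Γ, w = g • z} = closure (⋃₀ P)) →
  ∀ C : Set (OnePoint ℂ),
  (∃ g : Matrix.GeneralLinearGroup (Fin 2) ℂ,
    C = (fun w : OnePoint ℂ => g • w) '' (insert (OnePoint.infty : OnePoint ℂ) (Set.range (fun x : ℝ => OnePoint.some (x : ℂ)))) ∧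
    ((fun w : OnePoint ℂ => g • w) '' (OnePoint.some '' {z : ℂ | 0 < z.im}) ∩ closure (⋃₀ P)).Nonempty ∧
    ((fun w : OnePoint ℂ => g • w) '' (OnePoint.some '' {z : ℂ | z.im < 0}) ∩ closure (⋃₀ P)).Nonempty) →
  (IsClosed {h : Matrix.GeneralLinearGroup (Fin 2) ℂ | ∃ γ ∈ Γ,
      (fun w : OnePoint ℂ => h • w) '' (insert (OnePoint.infty : OnePoint ℂ) (Set.range (fun x : ℝ => OnePoint.some (x : ℂ)))) = (fun w : OnePoint ℂ => γ • w) '' C} ∨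
   ∀ h : Matrix.GeneralLinearGroup (Fin 2) ℂ,
     ((fun w : OnePoint ℂ => h • w) '' (insert (OnePoint.infty : OnePoint ℂ) (Set.range (fun x : ℝ => OnePoint.some (x : ℂ)))) ∩ closure (⋃₀ P)).Nonempty →
     h ∈ closure {h' : Matrix.GeneralLinearGroup (Fin 2) ℂ | ∃ γ ∈ Γ,
       (fun w : OnePoint ℂ => h' • w) '' (insert (OnePoint.infty : OnePoint ℂ) (Set.range (fun x : ℝ => OnePoint.some (x : ℂ)))) = (fun w : OnePoint ℂ => γ • w) '' C})) := by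
  intro hall
  open Pool.Agent.Lib.MP_cc6c48_an in
  exact (by
    obtain ⟨J, hJ, hmax⟩ := exists_max
    have h := hall PP ⟨Rhat, C2, C3, C4, ⟨1, (act_one Rhat).symm⟩, C2_circ, C3_circ, C4_circ,
      t12, t13, t14, t23, t24, t34, e123, e124, e134, e234, rfl⟩ (Subgroup.closure J)
      (fun g hg S => G0_PP_iff g (Gamma_le J hJ hg) S) (fun z => lim_eq J hJ hmax z) (Cs 1)
      ⟨hs 1, rfl, by
        obtain ⟨t, ht, hts⟩ := sep_upper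
        exact ⟨rp 5, ⟨_, ⟨t, ht, rfl⟩, hts⟩, real_Lam 5⟩, by
        obtain ⟨t, ht, hts⟩ := sep_lower
        exact ⟨rp 0, ⟨_, ⟨t, ht, rfl⟩, hts⟩, real_Lam 0⟩⟩
    rcases h with h | h
    · exact not_closed J hJ h
    · exact not_dense J hJ (h hf ⟨OnePoint.infty, hf_infty, X0_Lam infty_X0⟩))

end Pool.Agent.S06166
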