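import Pool.Statements.S06617
import Pool.Agent.Lib.MP_eee3e4_an.Final

set_option autoImplicit false
open Pool Pool.MP_eee3e4_an

namespace Pool.Agent.S06617

/-- Let A be a finite von Neumann factor on a Hilbert space and B a semisimple complex unital Banach algebra. If T: A → B is linear, surjective and spectrally bounded, then T(1) is a non-zero complex multiple of the identity of B. -/
theorem result :
    ∀ (H : Type) [NormedAddCommGroup H] [InnerProductSpace ℂ H] [CompleteSpace H]
      (B : Type) [NormedRing B] [NormedAlgebra ℂ B] [CompleteSpace B]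
      (A : StarSubalgebra ℂ (H →L[ℂ] H)),
      Set.centralizer (Set.centralizer (A : Set (H →L[ℂ] H))) = (A : Set (H →L[ℂ] H)) →
      (∀ z ∈ A, (∀ a ∈ A, z * a = a * z) → ∃ c : ℂ, z = c • (1 : H →L[ℂ] H)) →
      (∀ u ∈ A, star u * u = 1 → u * star u = 1) →
      (⊥ : Ideal B).jacobson = ⊥ →
      ∀ T : A →ₗ[ℂ] B, Function.Surjective T →
      (∃ M : NNReal, ∀ x : A,
        spectralRadius ℂ (T x) ≤ (M : ENNReal) * spectralRadius ℂ (x : H →L[ℂ] H)) →
      ∃ c : ℂ, c ≠ 0 ∧ T 1 = c • (1 : B) := by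
  intro H _ _ _ B _ _ _ A hA hfac _ hB T hsurj hT
  obtain ⟨M, hM⟩ := hT
  exact Pool.Agent.Lib.MP_eee3e4_an.main hA hfac hB hsurj hM

end Pool.Agent.S06617
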