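import Pool.Statements.S06680
import Pool.Agent.Lib.MP_f2c841_an.Final

set_option autoImplicit false
open MeasureTheory Filter Topology
open Pool Pool.MP_f2c841_an

namespace Pool.Agent.S06680

/-- The negation of the preceding statement: Take any invertible measure-preserving map on a probability space that is weakly mixing in the Cesàro sense, and any positive-measure set A. Then for some positive integers n, k, the set A meets its preimage under the (2^n·3^k)-th iterate in positive measure. -/
theorem result :
    ¬ (∀ (X : Type) [MeasurableSpace X] (μ : Measure X) [IsProbabilityMeasure μ]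
      (e : X ≃ᵐ X),
      MeasurePreserving (⇑e) μ μ →
      (∀ A B : Set X, MeasurableSet A → MeasurableSet B →
        Tendsto (fun N : ℕ => (N : ℝ)⁻¹ *
          ∑ n ∈ Finset.range N,
            |μ.real ((⇑e)^[n] ⁻¹' A ∩ B) - μ.real A * μ.real B|)
          atTop (𝓝 0)) →
      ∀ A : Set X, MeasurableSet A → 0 < μ A →
        ∃ n k : ℕ, 1 ≤ n ∧ 1 ≤ k ∧ 0 < μ (A ∩ (⇑e)^[2 ^ n * 3 ^ k] ⁻¹' A)) := by
  exact Pool.Agent.Lib.MP_f2c841_an.main

end Pool.Agent.S06680
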