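import Pool.Statements.S07119
import Pool.Agent.Lib.MP_0bab21_co.Game

set_option autoImplicit false
open Pool Pool.MP_0bab21_co

namespace Pool.Agent.S07119

/-- For every finite set M of positive moves, whether the second player wins Kotzig's Nim (normal play, first coin at 0, each next coin m ∈ M squares clockwise onto an empty square) on a circle of length n is eventually periodic in n. -/
theorem result :
    ∀ M : Finset ℕ, (∀ m ∈ M, 0 < m) →
      ∃ N p : ℕ, 0 < p ∧ ∀ n : ℕ, N ≤ n →
        ((∃ W : Finset (ZMod n) → ZMod n → Prop,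
            (∀ (S : Finset (ZMod n)) (x : ZMod n),
              W S x ↔ ∃ m ∈ M, (x + (m : ZMod n)) ∉ S ∧
                ¬ W (insert (x + (m : ZMod n)) S) (x + (m : ZMod n))) ∧
            W {0} 0) ↔
         (∃ W : Finset (ZMod (n + p)) → ZMod (n + p) → Prop,
            (∀ (S : Finset (ZMod (n + p))) (x : ZMod (n + p)),
              W S x ↔ ∃ m ∈ M, (x + (m : ZMod (n + p))) ∉ S ∧
                ¬ W (insert (x + (m : ZMod (n + p))) S) (x + (m : ZMod (n + p)))) ∧
            W {0} 0)) := by
  intro M hM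
  have hB : ∀ m ∈ M, 0 < m ∧ m < M.sup id + 1 := fun m hm =>
    ⟨hM m hm, Nat.lt_succ_of_le (Finset.le_sup (f := id) hm)⟩
  obtain ⟨N, p, hp, h⟩ := Pool.Agent.Lib.MP_0bab21_co.V_replicate_eventually_periodic
    (Pool.Agent.Lib.MP_0bab21_co.stepFn M (M.sup id + 1)) (M.sup id + 1 + 1) 0 false
  refine ⟨max N (M.sup id + 1), p, hp, ?_⟩
  intro n hn
  have h1 := Pool.Agent.Lib.MP_0bab21_co.exists_W_iff hB (n := n)
    (le_trans (le_max_right _ _) hn)
  have h2 := Pool.Agent.Lib.MP_0bab21_co.exists_W_iff hB (n := n + p)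
    (le_trans (le_trans (le_max_right _ _) hn) (Nat.le_add_right _ _))
  exact h1.trans ((not_congr (h n (le_trans (le_max_left _ _) hn))).symm.trans h2.symm)

end Pool.Agent.S07119
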