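import Pool.Statements.S07516

set_option autoImplicit false
open Matrix
open Pool Pool.MP_1debbc_co

namespace Pool.Agent.S07516

/-- The set of Rayleigh quotients of the adjacency matrix. -/
def RQ {n : ℕ} (G : SimpleGraph (Fin n)) [DecidableRel G.Adj] : Set ℝ :=
  {r : ℝ | ∃ x : Fin n → ℝ, x ⬝ᵥ x = 1 ∧ r = x ⬝ᵥ (G.adjMatrix ℝ *ᵥ x)}

lemma RQ_inst {n : ℕ} (G : SimpleGraph (Fin n)) (i1 i2 : DecidableRel G.Adj) :
    @RQ n G i1 = @RQ n G i2 := by
  rw [Subsingleton.elim i1 i2]

lemma quad_le {n : ℕ} (G : SimpleGraph (Fin n)) [DecidableRel G.Adj] (y : Fin n → ℝ) (l : ℝ)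
    (hy : ∀ u, 0 < y u) (h : ∀ u, ∑ w ∈ G.neighborFinset u, y w ≤ l * y u)
    (x : Fin n → ℝ) : x ⬝ᵥ (G.adjMatrix ℝ *ᵥ x) ≤ l * (x ⬝ᵥ x) := by
  classical
  have e1 : x ⬝ᵥ (G.adjMatrix ℝ *ᵥ x) =
      ∑ u, ∑ w, (if G.Adj u w then x u * x w else 0) := by
    simp only [dotProduct, mulVec, Finset.mul_sum]
    refine Finset.sum_congr rfl fun u _ => Finset.sum_congr rfl fun w _ => ?_
    by_cases hA : G.Adj u w <;> simp [SimpleGraph.adjMatrix_apply, hA]
  have key : ∀ u w, (if G.Adj u w then x u * x w else 0) ≤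
      (if G.Adj u w then (y w / y u * x u ^ 2) / 2 else 0) +
      (if G.Adj u w then (y u / y w * x w ^ 2) / 2 else 0) := by
    intro u w
    by_cases hA : G.Adj u w
    · simp only [hA, if_true]
      have hu := hy u
      have hw := hy w
      have hpos : 0 < y u * y w := mul_pos hu hw
      have : x u * x w ≤ (y w ^ 2 * x u ^ 2 + y u ^ 2 * x w ^ 2) / (2 * (y u * y w)) := by
        rw [le_div_iff₀ (by positivity)]
        nlinarith [sq_nonneg (y w * x u - y u * x w)]
      refine this.trans (le_of_eq ?_)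
      field_simp
    · simp [hA]
  rw [e1]
  have h2 : ∑ u, ∑ w, (if G.Adj u w then x u * x w else 0) ≤
      ∑ u, ∑ w, (if G.Adj u w then (y w / y u * x u ^ 2) / 2 else 0) +
      ∑ u, ∑ w, (if G.Adj u w then (y u / y w * x w ^ 2) / 2 else 0) := by
    rw [← Finset.sum_add_distrib]
    refine Finset.sum_le_sum fun u _ => ?_
    rw [← Finset.sum_add_distrib]
    exact Finset.sum_le_sum fun w _ => key u w
  have h3 : ∑ u, ∑ w, (if G.Adj u w then (y u / y w * x w ^ 2) / 2 else 0) =
      ∑ u, ∑ w, (if G.Adj u w then (y w / y u * x u ^ 2) / 2 else 0) := by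
    rw [Finset.sum_comm]
    refine Finset.sum_congr rfl fun u _ => Finset.sum_congr rfl fun w _ => ?_
    simp only [G.adj_comm w u]
  have h4 : ∀ u, ∑ w, (if G.Adj u w then (y w / y u * x u ^ 2) / 2 else 0) ≤
      l * x u ^ 2 / 2 := by
    intro u
    have hu := hy u
    have : ∑ w, (if G.Adj u w then (y w / y u * x u ^ 2) / 2 else 0) =
        (∑ w ∈ G.neighborFinset u, y w) * (x u ^ 2 / y u / 2) := by
      rw [Finset.sum_mul, ← Finset.sum_filter]
      refine Finset.sum_congr ?_ fun w _ => ?_
      · ext w; simp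
      · field_simp
    rw [this]
    have h5 := h u
    calc (∑ w ∈ G.neighborFinset u, y w) * (x u ^ 2 / y u / 2)
        ≤ (l * y u) * (x u ^ 2 / y u / 2) := by
          apply mul_le_mul_of_nonneg_right h5
          positivity
      _ = l * x u ^ 2 / 2 := by field_simp
  have h6 : ∑ u, ∑ w, (if G.Adj u w then (y w / y u * x u ^ 2) / 2 else 0) ≤
      ∑ u, l * x u ^ 2 / 2 := Finset.sum_le_sum fun u _ => h4 u
  have h7 : ∑ u, l * x u ^ 2 / 2 = l * (x ⬝ᵥ x) / 2 := by
    simp only [dotProduct, Finset.mul_sum, Finset.sum_div]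
    refine Finset.sum_congr rfl fun u _ => ?_
    ring
  rw [h3] at h2
  linarith

lemma RQ_le {n : ℕ} (G : SimpleGraph (Fin n)) [DecidableRel G.Adj] (y : Fin n → ℝ) (l : ℝ)
    (hy : ∀ u, 0 < y u) (h : ∀ u, ∑ w ∈ G.neighborFinset u, y w ≤ l * y u) :
    ∀ r ∈ RQ G, r ≤ l := by
  rintro r ⟨x, hx, rfl⟩
  have := quad_le G y l hy h x
  rw [hx, mul_one] at this
  exact this

lemma RQ_bdd {n : ℕ} (G : SimpleGraph (Fin n)) [DecidableRel G.Adj] : BddAbove (RQ G) := by
  refine ⟨n, ?_⟩
  apply RQ_le G (fun _ => 1) n (fun _ => one_pos)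
  intro u
  simp only [Finset.sum_const, nsmul_eq_mul, mul_one]
  exact_mod_cast (Finset.card_le_univ _).trans (by simp)

lemma RQ_nonempty (G : SimpleGraph (Fin 8)) [DecidableRel G.Adj] : (RQ G).Nonempty := by
  refine ⟨_, Pi.single 0 1, ?_, rfl⟩
  simp

/-- Upper bound: graphs on `8` vertices with degrees `3, 5, …, 5`. -/
lemma upper (G : SimpleGraph (Fin 8)) [DecidableRel G.Adj] (v : Fin 8) (hv : G.degree v = 3)
    (hw : ∀ w, w ≠ v → G.degree w = 5) : sSup (RQ G) ≤ 122 / 25 := by
  classical
  set N := G.neighborFinset v with hN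
  have hNcard : N.card = 3 := hv
  have hvN : v ∉ N := by simp [hN]
  let y : Fin 8 → ℝ := fun u => 1 - (if u = v then 42 / 100 else 0) - (if u ∈ N then 6 / 100 else 0)
  have hsum : ∀ u, ∑ w ∈ G.neighborFinset u, y w =
      (G.degree u : ℝ) - (if u ∈ N then 42 / 100 else 0)
        - (6 / 100) * ((G.neighborFinset u ∩ N).card : ℝ) := by
    intro u
    simp only [y, Finset.sum_sub_distrib]
    congr 1
    · congr 1
      · simp
      · rw [Finset.sum_ite_eq']
        simp only [hN, SimpleGraph.mem_neighborFinset, G.adj_comm]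
    · rw [← Finset.sum_filter, Finset.sum_const, Finset.filter_mem_eq_inter, nsmul_eq_mul]
      ring
  apply csSup_le (RQ_nonempty G)
  apply RQ_le G y
  · intro u
    simp only [y]
    split_ifs <;> norm_num
  · intro u
    rw [hsum u]
    by_cases huv : u = v
    · subst huv
      have : G.neighborFinset u ∩ N = N := by simp [hN]
      rw [this, hNcard, hv]
      simp only [y, hvN, if_true, if_false]
      norm_num
    · by_cases huN : u ∈ N
      · rw [hw u huv]
        simp only [y, huN, huv, if_true, if_false]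
        have : (0 : ℝ) ≤ ((G.neighborFinset u ∩ N).card : ℝ) := by positivity
        norm_num
        linarith
      · rw [hw u huv]
        simp only [y, huN, huv, if_false]
        have hsub : G.neighborFinset u ∪ N ⊆ Finset.univ \ {u, v} := by
          intro w hw'
          simp only [Finset.mem_sdiff, Finset.mem_univ, true_and, Finset.mem_insert,
            Finset.mem_singleton, not_or]
          rw [Finset.mem_union] at hw'
          constructor
          · rintro rfl
            rcases hw' with h | h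
            · simp at h
            · exact huN h
          · rintro rfl
            rcases hw' with h | h
            · apply huN
              rw [hN, SimpleGraph.mem_neighborFinset]
              rw [SimpleGraph.mem_neighborFinset] at h
              exact h.symm
            · exact hvN h
        have hc : (G.neighborFinset u ∪ N).card ≤ 6 := by
          refine (Finset.card_le_card hsub).trans ?_
          rw [Finset.card_sdiff_of_subset (Finset.subset_univ _), Finset.card_pair huv]
          simp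
        have hc2 := Finset.card_union_add_card_inter (G.neighborFinset u) N
        have hc3 : (G.neighborFinset u).card = 5 := hw u huv
        have hc4 : 2 ≤ (G.neighborFinset u ∩ N).card := by omega
        have hc5 : (2 : ℝ) ≤ ((G.neighborFinset u ∩ N).card : ℝ) := by exact_mod_cast hc4
        norm_num
        linarith

/-- The comparison graph: a pendant vertex `0` attached to `1`; `1` is joined to `2,3,4,5`;
`6,7` are joined to each other and to `2,3,4,5`; on `2,3,4,5` the non-edges are `23` and `45`. -/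
def adjB (i j : Fin 8) : Bool :=
  (i.1 == 0 && j.1 == 1) || (i.1 == 1 && (2 ≤ j.1 && j.1 ≤ 5)) ||
  ((2 ≤ i.1 && i.1 ≤ 5) && 6 ≤ j.1) || (i.1 == 6 && j.1 == 7) ||
  ((i.1 == 2 || i.1 == 3) && (j.1 == 4 || j.1 == 5))

def P : SimpleGraph (Fin 8) where
  Adj i j := (adjB i j || adjB j i) = true
  symm := ⟨fun i j h => by rw [Bool.or_comm]; exact h⟩
  loopless := ⟨by decide⟩

instance : DecidableRel P.Adj := fun i j => inferInstanceAs (Decidable ((adjB i j || adjB j i) = true))

lemma P_maxDegree : P.maxDegree = 5 := by decide +kernel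

lemma P_nonregular : ∀ d : ℕ, ¬ P.IsRegularOfDegree d := by
  intro d h
  have h0 := h 0
  have h1 := h 1
  have e0 : P.degree 0 = 1 := by decide +kernel
  have e1 : P.degree 1 = 5 := by decide +kernel
  omega

lemma P_connected : P.Connected := by
  have h01 : P.Adj 0 1 := by decide
  have h12 : P.Adj 1 2 := by decide
  have h13 : P.Adj 1 3 := by decide
  have h14 : P.Adj 1 4 := by decide
  have h15 : P.Adj 1 5 := by decide
  have h26 : P.Adj 2 6 := by decide
  have h27 : P.Adj 2 7 := by decide
  have r : ∀ u, P.Reachable 1 u := by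
    intro u
    fin_cases u
    · exact h01.symm.reachable
    · exact SimpleGraph.Reachable.refl _
    · exact h12.reachable
    · exact h13.reachable
    · exact h14.reachable
    · exact h15.reachable
    · exact h12.reachable.trans h26.reachable
    · exact h12.reachable.trans h27.reachable
  have : Nonempty (Fin 8) := ⟨0⟩
  exact ⟨fun u w => (r u).symm.trans (r w)⟩

/-- Test vector. -/
def z : Fin 8 → ℝ := ![1, 5, 6, 6, 6, 6, 6, 6]

lemma P_quad : z ⬝ᵥ (P.adjMatrix ℝ *ᵥ z) = 1186 := by
  simp only [dotProduct, mulVec, Fin.sum_univ_succ, z, P, adjB]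
  simp
  norm_num


lemma z_quad : z ⬝ᵥ z = 242 := by
  simp only [dotProduct, Fin.sum_univ_succ, z]
  simp
  norm_num

lemma lower : (1186 / 242 : ℝ) ≤ sSup (RQ P) := by
  apply le_csSup (RQ_bdd P)
  have h242 : (0 : ℝ) < 242 := by norm_num
  refine ⟨(1 / Real.sqrt 242) • z, ?_, ?_⟩
  · rw [smul_dotProduct, dotProduct_smul, z_quad]
    simp only [smul_eq_mul]
    have := Real.mul_self_sqrt h242.le
    field_simp
    rw [Real.sq_sqrt h242.le]
  · rw [mulVec_smul, smul_dotProduct, dotProduct_smul, P_quad]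
    simp only [smul_eq_mul]
    rw [← mul_assoc, div_mul_div_comm, Real.mul_self_sqrt h242.le]
    norm_num

/-- The negation of the preceding statement: For 3 ≤ Δ ≤ n−2, every connected nonregular n-vertex graph of max degree Δ with the largest adjacency spectral radius among such graphs has one vertex of degree δ and all others of degree Δ. Here δ = Δ−1 if nΔ is odd, else Δ−2. -/
theorem result :
    ¬ (∀ (n Δ : ℕ), 3 ≤ Δ → Δ ≤ n - 2 →
      ∀ (G : SimpleGraph (Fin n)) [DecidableRel G.Adj],
        G.Connected → G.maxDegree = Δ → (∀ d : ℕ, ¬ G.IsRegularOfDegree d) →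
        (∀ (H : SimpleGraph (Fin n)) [DecidableRel H.Adj],
            H.Connected → H.maxDegree = Δ → (∀ d : ℕ, ¬ H.IsRegularOfDegree d) →
            sSup {r : ℝ | ∃ x : Fin n → ℝ, x ⬝ᵥ x = 1 ∧ r = x ⬝ᵥ (H.adjMatrix ℝ *ᵥ x)} ≤
              sSup {r : ℝ | ∃ x : Fin n → ℝ, x ⬝ᵥ x = 1 ∧ r = x ⬝ᵥ (G.adjMatrix ℝ *ᵥ x)}) →
        ∃ v : Fin n, G.degree v = (if Odd (n * Δ) then Δ - 1 else Δ - 2) ∧
          ∀ w : Fin n, w ≠ v → G.degree w = Δ) := by
  classical
  intro h
  let S : Set (SimpleGraph (Fin 8)) :=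
    {G | G.Connected ∧ G.maxDegree = 5 ∧ ∀ d : ℕ, ¬ G.IsRegularOfDegree d}
  have hP : P ∈ S := by
    refine ⟨P_connected, ?_, ?_⟩
    · convert P_maxDegree
    · intro d hd
      apply P_nonregular d
      convert hd
  obtain ⟨G, hG, hmax⟩ := Set.exists_max_image S (fun G => sSup (RQ G)) (Set.toFinite S) ⟨P, hP⟩
  obtain ⟨hG1, hG2, hG3⟩ := hG
  obtain ⟨v, hv1, hv2⟩ := h 8 5 (by norm_num) (by norm_num) G hG1 hG2 hG3 (by
    intro H inst hH1 hH2 hH3
    have := hmax H ⟨hH1, by convert hH2, by
      intro d hd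
      apply hH3 d
      convert hd⟩
    rw [RQ_inst H _ inst] at this
    exact this)
  have hodd : ¬ Odd (8 * 5) := by decide
  rw [if_neg hodd] at hv1
  have h1 := upper G v hv1 hv2
  have h2 := hmax P hP
  have h3 := lower
  have h4 : sSup (RQ P) ≤ 122 / 25 := by
    refine le_trans ?_ h1
    convert h2
  have := h3.trans h4
  norm_num at this

end Pool.Agent.S07516
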