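import Pool.Statements.S08141
import Pool.Agent.Lib.MP_389e9c_co.Main

set_option autoImplicit false
open Pool Pool.MP_389e9c_co

namespace Pool.Agent.S08141

open Pool.Agent.Lib.MP_389e9c_co Polynomial in
/-- Linear independence of `1, γ ^ 2, γ ^ 4, γ ^ 6` for a generator of an extension of degree
at least seven. -/
lemma indep_of_degree {F L : Type*} [Field F] [Field L] [Algebra F L] (γ : L)
    (h : 7 ≤ (minpoly F γ).natDegree) (c0 c1 c2 c3 : F)
    (h0 : algebraMap F L c0 + γ ^ 2 * algebraMap F L c1 +
      γ ^ 4 * algebraMap F L c2 + γ ^ 6 * algebraMap F L c3 = 0) :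
    c0 = 0 ∧ c1 = 0 ∧ c2 = 0 ∧ c3 = 0 := by
  set p : F[X] := C c0 + C c1 * X ^ 2 + C c2 * X ^ 4 + C c3 * X ^ 6 with hp
  have hroot : aeval γ p = 0 := by
    rw [← h0, hp]
    simp only [map_add, map_mul, aeval_C, map_pow, aeval_X]
    ring
  have hp0 : p = 0 := by
    by_contra hne
    have h1 := minpoly.degree_le_of_ne_zero F γ hne hroot
    have h2 : p.degree ≤ 6 := by
      rw [hp]
      compute_degree
    have h3 : (minpoly F γ).degree ≤ 6 := h1.trans h2
    have h4 : (minpoly F γ).natDegree ≤ 6 := Polynomial.natDegree_le_of_degree_le h3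
    omega
  have k0 : p.coeff 0 = 0 := by rw [hp0]; simp
  have k2 : p.coeff 2 = 0 := by rw [hp0]; simp
  have k4 : p.coeff 4 = 0 := by rw [hp0]; simp
  have k6 : p.coeff 6 = 0 := by rw [hp0]; simp
  rw [hp] at k0 k2 k4 k6
  simp [coeff_X_pow, coeff_C] at k0 k2 k4 k6
  exact ⟨k0, k2, k4, k6⟩

/-- There is a finite field F, an extension K of degree m>1, and an F-linear code of n×m matrices whose shortened-code dimensions are all divisible by m, such that no matrix over K represents the q-matroid with rank (dim C − dim C(V^⊥))/m. -/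
theorem result :
    ∃ (F K : Type) (_ : Field F) (_ : Fintype F) (_ : Field K) (_ : Algebra F K) (m n : ℕ),
      1 < m ∧ Module.finrank F K = m ∧
      ∃ C : Submodule F (Fin n → Fin m → F),
        (∀ W : Submodule F (Fin n → F),
          m ∣ Module.finrank F ↥(C ⊓ ⨅ j : Fin m, Submodule.comap
            (LinearMap.pi (fun i : Fin n =>
              LinearMap.comp (LinearMap.proj j : (Fin m → F) →ₗ[F] F)
                (LinearMap.proj i : (Fin n → Fin m → F) →ₗ[F] (Fin m → F)))) W)) ∧
        ¬ ∃ (k : ℕ) (G : Matrix (Fin k) (Fin n) K),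
          ∀ V : Submodule F (Fin n → F),
            m * Module.finrank K (Submodule.span K
              ((fun v : Fin n → F => Matrix.mulVec G (fun i => algebraMap F K (v i))) ''
                (V : Set (Fin n → F))))
            = Module.finrank F C - Module.finrank F ↥(C ⊓ ⨅ j : Fin m, Submodule.comap
              (LinearMap.pi (fun i : Fin n =>
                LinearMap.comp (LinearMap.proj j : (Fin m → F) →ₗ[F] F)
                  (LinearMap.proj i : (Fin n → Fin m → F) →ₗ[F] (Fin m → F))))
              (⨅ (v : Fin n → F) (_ : v ∈ V), LinearMap.ker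
                (∑ i : Fin n, v i • (LinearMap.proj i : (Fin n → F) →ₗ[F] F)))) := by
  obtain ⟨γ, hγ⟩ := Field.exists_primitive_element (ZMod 2) (GaloisField 2 7)
  have hfr : Module.finrank (ZMod 2) (GaloisField 2 7) = 7 := GaloisField.finrank 2 (by norm_num)
  have hdeg : (minpoly (ZMod 2) γ).natDegree = 7 :=
    ((Field.primitive_element_iff_minpoly_natDegree_eq (ZMod 2) γ).mp hγ).trans hfr
  have hS : Module.finrank (ZMod 2) (Fin 2 → GaloisField 2 7) = 14 := by
    rw [Module.finrank_pi_fintype]
    simp [hfr]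
  have hε : ∀ x y : ZMod 2, x ^ 2 + x * y - 1 * y ^ 2 = 0 → x = 0 ∧ y = 0 := by decide
  obtain ⟨C, hC1, hC2⟩ := Pool.Agent.Lib.MP_389e9c_co.exists_code hS hε
    (indep_of_degree γ hdeg.ge)
  exact ⟨ZMod 2, GaloisField 2 14, inferInstance, inferInstance, inferInstance, inferInstance,
    14, 7, by norm_num, GaloisField.finrank 2 (by norm_num), C, hC1, hC2 (GaloisField 2 14)⟩

end Pool.Agent.S08141
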