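import Pool.Statements.S08175
import Pool.Agent.Lib.MP_39c6f6_co.Final

set_option autoImplicit false
open Pool Pool.MP_39c6f6_co

namespace Pool.Agent.S08175

/-- Every finite simple 5-regular graph has a spanning subgraph in which every vertex has degree exactly 1 or exactly 4. -/
theorem result :
    ∀ (V : Type) [Fintype V] [DecidableEq V] (G : SimpleGraph V) [DecidableRel G.Adj],
      G.IsRegularOfDegree 5 →
        ∃ H : SimpleGraph V, H ≤ G ∧
          ∀ v : V, (H.neighborSet v).ncard = 1 ∨ (H.neighborSet v).ncard = 4 := by
  intro V _ _ G _ hG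
  exact OneFour.simple_graph V G hG

end Pool.Agent.S08175
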