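import Pool.Statements.S08648
import Pool.Agent.Lib.MP_4d23dd_co.Final

set_option autoImplicit false
open Filter
open Pool Pool.MP_4d23dd_co

namespace Pool.Agent.S08648

/-- The negation of the preceding statement: Some function g tends to infinity such that the number of binary words of length n having exactly n+1 distinct palindromic factors (counting the empty word) is Theta of (n/g(n)) raised to the power sqrt(n). -/
theorem result :
    ¬ (∃ g : ℕ → ℝ, Tendsto g atTop atTop ∧
      Asymptotics.IsTheta atTop
        (fun n : ℕ => ((Set.ncard {w : List (Fin 2) | w.length = n ∧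
            Set.ncard {u : List (Fin 2) | u <:+: w ∧ u.reverse = u} = w.length + 1} : ℕ) : ℝ))
        (fun n : ℕ => ((n : ℝ) / g n) ^ Real.sqrt (n : ℝ))) := by
  exact Pool.Agent.Lib.MP_4d23dd_co.main

end Pool.Agent.S08648
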