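import Pool.Statements.S08939
import Pool.Agent.Lib.MP_5ad3e6_co.SecA
import Pool.Agent.Lib.MP_5ad3e6_co.SecB

set_option autoImplicit false
open Pool Pool.MP_5ad3e6_co

namespace Pool.Agent.S08939

lemma cast_iter (a : ℕ → ℤ) (b : ℕ → ℝ) (h : ∀ n, ((a n : ℤ) : ℝ) = b n) (k : ℕ) : ∀ n : ℕ,
    ((((fun (a : ℕ → ℤ) (m : ℕ) => a m * a (m + 2) - a (m + 1) ^ 2)^[k] a) n : ℤ) : ℝ) =
      (Pool.Agent.MP5ad.Ls^[k] b) n := by
  induction k with
  | zero => intro n; simpa using h n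
  | succ k ih =>
    intro n
    rw [Function.iterate_succ_apply', Pool.Agent.MP5ad.Ls_iter_succ]
    push_cast
    rw [ih, ih, ih]

/-- With L(a)_n = a_n a_{n+2} − a_{n+1}^2, every iterate L^k (k ≥ 0) of A_n = Σ C(n,k)²C(n+k,k)² and of B_n = Σ C(n,k)²C(n+k,k) is a nonnegative sequence, i.e. both are infinitely log-convex. -/
theorem result :
    (∀ k n : ℕ, 0 ≤ ((fun (a : ℕ → ℤ) (m : ℕ) => a m * a (m + 2) - a (m + 1) ^ 2)^[k]
        (fun m : ℕ => ∑ j ∈ Finset.range (m + 1),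
          ((m.choose j : ℕ) : ℤ) ^ 2 * (((m + j).choose j : ℕ) : ℤ) ^ 2)) n) ∧
    (∀ k n : ℕ, 0 ≤ ((fun (a : ℕ → ℤ) (m : ℕ) => a m * a (m + 2) - a (m + 1) ^ 2)^[k]
        (fun m : ℕ => ∑ j ∈ Finset.range (m + 1),
          ((m.choose j : ℕ) : ℤ) ^ 2 * (((m + j).choose j : ℕ) : ℤ))) n) := by
  constructor
  · intro k n
    have h := Pool.Agent.MP5ad.infA k n
    rw [← cast_iter (fun m : ℕ => ∑ j ∈ Finset.range (m + 1),
      ((m.choose j : ℕ) : ℤ) ^ 2 * (((m + j).choose j : ℕ) : ℤ) ^ 2)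
      (fun n => (Pool.Agent.MP5ad.seqA n : ℝ)) (fun n => by
        unfold Pool.Agent.MP5ad.seqA; push_cast; rfl)] at h
    exact_mod_cast h.le
  · intro k n
    have h := Pool.Agent.MP5ad.infB k n
    rw [← cast_iter (fun m : ℕ => ∑ j ∈ Finset.range (m + 1),
      ((m.choose j : ℕ) : ℤ) ^ 2 * (((m + j).choose j : ℕ) : ℤ))
      (fun n => (Pool.Agent.MP5ad.seqB n : ℝ)) (fun n => by
        unfold Pool.Agent.MP5ad.seqB; push_cast; rfl)] at h
    exact_mod_cast h.le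

end Pool.Agent.S08939
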