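import Pool.Statements.S09129
import Pool.Agent.Lib.MP_616546_co.Small
import Pool.Agent.Lib.MP_616546_co.FFinal

set_option autoImplicit false
open Pool Pool.MP_616546_co

namespace Pool.Agent.S09129

/-- If H is a 2-regular graph on t vertices with c odd components, and H is neither an even t-cycle nor a union of 4-cycles, then every graph with at least t vertices and average degree at least t+c-2 has H as a minor. -/
theorem result :
    ∀ (t : ℕ) (H : SimpleGraph (Fin t)),
      (∀ v : Fin t, Nat.card (H.neighborSet v) = 2) →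
      ¬ (H.Connected ∧ Even t) →
      ¬ (∀ C : H.ConnectedComponent, Nat.card C.supp = 4) →
      ∀ (n : ℕ) (G : SimpleGraph (Fin n)),
        t ≤ n →
        (((t : ℤ) + (Nat.card {C : H.ConnectedComponent // Odd (Nat.card C.supp)} : ℤ) - 2)
            * (n : ℤ) ≤ 2 * (Nat.card G.edgeSet : ℤ)) →
        ∃ f : Fin t → Set (Fin n),
          (∀ i, (G.induce (f i)).Connected) ∧
          (∀ i j, i ≠ j → Disjoint (f i) (f j)) ∧
          (∀ i j, H.Adj i j → ∃ x ∈ f i, ∃ y ∈ f j, G.Adj x y) := by
  exact Pool.Agent.TwoRegMinor.final_of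
    (fun _ _ _ h => Pool.Agent.TwoRegMinor.tp_main h)
    (fun _ q G A hq h => Pool.Agent.TwoRegMinor.tpp_main q hq G A h)

end Pool.Agent.S09129
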