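-- Hand-in for frozen statement S09687 (problem MP_7c9306_co), started from Pool/Templates/S09687.lean.txt.
-- An infinite family of connected graphs with exactly three valencies and exactly three eigenvalues;
-- the construction is in Pool/Agent/Lib/MP_7c9306_co/.
import Pool.Statements.S09687
import Pool.Agent.Lib.MP_7c9306_co.Family

set_option autoImplicit false
open Pool Pool.MP_7c9306_co

namespace Pool.Agent.S09687

/-- For every N there is a connected simple graph on at least N vertices whose vertex degrees take exactly three distinct values and whose adjacency matrix has exactly three distinct eigenvalues. -/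
theorem result :
    ∀ N : ℕ, ∃ n : ℕ, N ≤ n ∧ ∃ G : SimpleGraph (Fin n), ∃ inst : DecidableRel G.Adj,
      G.Connected ∧
      (Finset.univ.image (fun v => G.degree v)).card = 3 ∧
      (G.adjMatrix ℝ).charpoly.roots.toFinset.card = 3 := by
  intro N
  obtain ⟨n, hn, h⟩ := Pool.Agent.MP7c9306.family N
  refine ⟨n, le_trans ?_ hn, h⟩
  have h1 : N < 2 ^ N := Nat.lt_two_pow_self
  have h2 : 2 ^ N ≤ 4 ^ (2 * (N + 2)) := by
    calc 2 ^ N ≤ 4 ^ N := Nat.pow_le_pow_left (by norm_num) N
      _ ≤ 4 ^ (2 * (N + 2)) := Nat.pow_le_pow_right (by norm_num) (by omega)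
  omega

end Pool.Agent.S09687
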