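import Pool.Statements.S10493
import Pool.Agent.Lib.MP_a18785_co.Final

set_option autoImplicit false
open Pool Pool.MP_a18785_co

namespace Pool.Agent.S10493

/-- For all sufficiently large k, every finite graph in which each nonempty vertex set has a vertex with at most k neighbours inside it, and whose maximum degree is at least 2k−1, has its edges properly colourable with maximum-degree many colours. -/
theorem result :
    ∃ K : ℕ, ∀ k : ℕ, K ≤ k →
      ∀ (V : Type) [Fintype V] [DecidableEq V] (G : SimpleGraph V) [DecidableRel G.Adj],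
        (∀ s : Finset V, s.Nonempty → ∃ v ∈ s, (s.filter (fun w => G.Adj v w)).card ≤ k) →
        2 * k - 1 ≤ G.maxDegree →
        G.lineGraph.Colorable G.maxDegree := by
  refine ⟨65, fun k hk V _ _ G _ hdeg hmax => ?_⟩
  have h1 : Pool.Agent.Lib.MP_a18785_co.Degen G k := by
    intro s hs
    obtain ⟨v, hv, hvt⟩ := hdeg s hs
    refine ⟨v, hv, fun t ht hw => le_trans (Finset.card_le_card ?_) hvt⟩
    intro w hwt
    exact Finset.mem_filter.mpr ⟨ht hwt, hw w hwt⟩
  have h2 : Pool.Agent.Lib.MP_a18785_co.MaxDeg G (Fintype.card (Fin G.maxDegree)) := by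
    intro v t hw
    rw [Fintype.card_fin]
    refine le_trans (Finset.card_le_card ?_) (G.degree_le_maxDegree v)
    intro w hwt
    exact (SimpleGraph.mem_neighborFinset _ _ _).mpr (hw w hwt)
  obtain ⟨φ, hφ⟩ := Pool.Agent.Lib.MP_a18785_co.exists_full (C := Fin G.maxDegree) hk
    (by rw [Fintype.card_fin]; omega) G h1 h2
  exact Pool.Agent.Lib.MP_a18785_co.colorable_of_full hφ

end Pool.Agent.S10493
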