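-- Proof of the frozen statement S10543.
import Pool.Statements.S10543
import Pool.Agent.Lib.MP_a3e24b_co.Torus

set_option autoImplicit false
open Pool Pool.MP_a3e24b_co

namespace Pool.Agent.S10543

open Finset Pool.Agent.Lib.MP_a3e24b_co

theorem exists_J (ε : ℝ) (hε : 0 < ε) : ∃ J : ℕ, 1 ≤ J ∧ (16 * J : ℝ) ≤ (1 + ε) ^ J := by
  have h := tendsto_pow_const_mul_const_pow_of_abs_lt_one 1 (r := 1 / (1 + ε)) (by
    rw [abs_of_pos (by positivity), div_lt_one (by positivity)]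
    linarith)
  have h2 := h.eventually (gt_mem_nhds (show (0 : ℝ) < 1 / 16 by norm_num))
  obtain ⟨J, hJ1, hJ2⟩ := (h2.and (Filter.eventually_ge_atTop 1)).exists
  refine ⟨J, hJ2, ?_⟩
  rw [pow_one, one_div, inv_pow, ← div_eq_mul_inv, div_lt_iff₀ (by positivity)] at hJ1
  linarith

theorem exists_N (ε η C : ℝ) (hε : 0 < ε) (hη : 0 < η) (hC : 0 < C) :
    ∃ N : ℕ, ∀ n : ℕ, N ≤ n → C * (n : ℝ) ^ 2 * (1 + ε) ^ n ≤ (1 + ε + η) ^ n := by
  have h := tendsto_pow_const_mul_const_pow_of_abs_lt_one 2 (r := (1 + ε) / (1 + ε + η)) (by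
    rw [abs_of_pos (by positivity), div_lt_one (by positivity)]
    linarith)
  have h2 := h.eventually (gt_mem_nhds (show (0 : ℝ) < 1 / C by positivity))
  obtain ⟨N, hN⟩ := Filter.eventually_atTop.1 h2
  refine ⟨N, fun n hn => ?_⟩
  have h3 := hN n hn
  have hpos : (0 : ℝ) < (1 + ε + η) ^ n := by positivity
  rw [div_pow, ← mul_div_assoc, div_lt_div_iff₀ hpos hC] at h3
  linarith

/-- For every ε>0 there is k such that, for all η>0 and all large n, R^n can be coloured with at most (1+ε+η)^n colours so that no k+1 points at l1-distances ∣i−j∣ from each other, i.e. a unit baton, are all the same colour. -/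
theorem result :
    ∀ ε : ℝ, 0 < ε → ∃ k : ℕ, ∀ η : ℝ, 0 < η → ∃ N : ℕ, ∀ n : ℕ, N ≤ n →
      ∃ m : ℕ, (m : ℝ) ≤ (1 + ε + η) ^ n ∧
        ∃ c : (Fin n → ℝ) → Fin m,
          ∀ f : Fin (k + 1) → (Fin n → ℝ),
            (∀ i j : Fin (k + 1),
              ∑ t : Fin n, |f i t - f j t| = |((i : ℕ) : ℝ) - ((j : ℕ) : ℝ)|) →
            ∃ i j : Fin (k + 1), c (f i) ≠ c (f j) := by
  intro ε hε
  obtain ⟨J, hJ1, hJ⟩ := exists_J ε hε
  refine ⟨4 * J + 2, ?_⟩
  intro η hη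
  set k : ℕ := 4 * J + 2 with hk
  obtain ⟨N, hN⟩ := exists_N ε η (12 * k + 13) hε hη (by positivity)
  refine ⟨max N 1, ?_⟩
  intro n hn
  have hnN : N ≤ n := le_trans (le_max_left _ _) hn
  have hn1 : 1 ≤ n := le_trans (le_max_right _ _) hn
  have hn1r : (1 : ℝ) ≤ n := by exact_mod_cast hn1
  set M : ℕ := 2 * (n * k + 1) with hM
  have : NeZero M := ⟨by omega⟩
  obtain ⟨j, hj, hratio⟩ := exists_ratio n M J hJ1 ε hε hJ
  set b0 : ℝ := (ballCard (tlen n M) (2 * n * j) : ℝ) with hb0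
  set b1 : ℝ := (ballCard (tlen n M) (2 * n * j + 2 * n) : ℝ) with hb1
  have hb0pos : (1 : ℝ) ≤ b0 := by
    rw [hb0]
    exact_mod_cast ballCard_pos (tlen n M) (isLen_tlen n M) (2 * n * j)
  set X : ℝ := Real.log (Fintype.card (Fin n → ZMod M)) * (6 * b1) / b0 with hX
  have hcard : (Fintype.card (Fin n → ZMod M) : ℝ) = (M : ℝ) ^ n := by
    rw [Fintype.card_fun, Fintype.card_fin, ZMod.card]
    push_cast
    ring
  have hMpos : (0 : ℝ) < M := by exact_mod_cast Nat.pos_of_ne_zero (NeZero.ne M)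
  have hlog0 : 0 ≤ Real.log M := Real.log_natCast_nonneg M
  have hlogM : Real.log M ≤ (2 * k + 2) * n := by
    have h1 : Real.log M ≤ M - 1 := Real.log_le_sub_one_of_pos hMpos
    have h2 : (M : ℝ) = 2 * (n * k + 1) := by rw [hM]; push_cast; ring
    rw [h2] at h1 ⊢
    nlinarith
  have hpowpos : (0 : ℝ) < (1 + ε) ^ n := by positivity
  have hX1 : X ≤ (12 * k + 12) * (n : ℝ) ^ 2 * (1 + ε) ^ n := by
    rw [hX, hcard, Real.log_pow]
    rw [div_le_iff₀ (by linarith)]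
    have h1 : (n : ℝ) * Real.log M ≤ n * ((2 * k + 2) * n) :=
      mul_le_mul_of_nonneg_left hlogM (by linarith)
    have h2 : 6 * b1 ≤ 6 * ((1 + ε) ^ n * b0) := by linarith
    calc (n : ℝ) * Real.log M * (6 * b1)
        ≤ (n * ((2 * k + 2) * n)) * (6 * ((1 + ε) ^ n * b0)) := by
          apply mul_le_mul h1 h2
          · rw [hb1]; positivity
          · positivity
      _ = _ := by ring
  have hX0 : 0 ≤ X := by
    rw [hX, hcard, Real.log_pow]
    have : 0 ≤ b1 := by rw [hb1]; positivity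
    positivity
  obtain ⟨c, hc⟩ := exists_colouring (tlen n M) (isLen_tlen n M) (2 * n * j) (2 * n)
    (⌊X⌋₊ + 1) (by
      push_cast
      exact Nat.lt_floor_add_one X)
  refine ⟨⌊X⌋₊ + 1, ?_, fun x => c (disc n M x), ?_⟩
  · push_cast
    have h1 : (⌊X⌋₊ : ℝ) ≤ X := Nat.floor_le hX0
    have h2 := hN n hnN
    have h3 : (1 : ℝ) ≤ (n : ℝ) ^ 2 * (1 + ε) ^ n := by
      have h4 : (1 : ℝ) ≤ (n : ℝ) ^ 2 := by nlinarith
      have h5 : (1 : ℝ) ≤ (1 + ε) ^ n := one_le_pow₀ (by linarith)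
      nlinarith
    have h6 : (12 * (k : ℝ) + 13) * (n : ℝ) ^ 2 * (1 + ε) ^ n =
        (12 * k + 12) * (n : ℝ) ^ 2 * (1 + ε) ^ n + (n : ℝ) ^ 2 * (1 + ε) ^ n := by ring
    linarith
  · intro f hf
    by_contra hcon
    push Not at hcon
    have h1 := hc k (fun i => disc n M (f i)) (by
      intro i
      have h2 := disc_upper n M (f i.castSucc) (f i.succ)
      rw [hf i.castSucc i.succ] at h2
      have h3 : |(((i.castSucc : Fin (k + 1)) : ℕ) : ℝ) - (((i.succ : Fin (k + 1)) : ℕ) : ℝ)|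
          = 1 := by
        simp
      rw [h3] at h2
      have h4 : (tlen n M (disc n M (f i.castSucc) - disc n M (f i.succ)) : ℝ)
          ≤ ((2 * n : ℕ) : ℝ) := by
        push_cast
        linarith
      exact_mod_cast h4) (fun i j => hcon i j)
    have h5 : ∑ t, |f 0 t - f (Fin.last k) t| = k := by
      rw [hf 0 (Fin.last k)]
      simp
    have h6 := disc_lower n M k (le_of_eq hM.symm) (f 0) (f (Fin.last k)) (le_of_eq h5)
    rw [h5] at h6
    have h7 : (tlen n M (disc n M (f 0) - disc n M (f (Fin.last k))) : ℝ) ≤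
        ((2 * (2 * n * j) : ℕ) : ℝ) := by exact_mod_cast h1
    push_cast at h7
    have h8 : (j : ℝ) + 1 ≤ J := by exact_mod_cast hj
    have h9 : (k : ℝ) = 4 * J + 2 := by rw [hk]; push_cast; ring
    rw [h9] at h6
    nlinarith

end Pool.Agent.S10543
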