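import Pool.Statements.S11528
import Pool.Agent.Lib.MP_cf103f_co.Final

set_option autoImplicit false
open Pool Pool.MP_cf103f_co

namespace Pool.Agent.S11528

/-- The negation of the preceding statement: Every torus-shaped polyhedron in 3-space made of finitely many convex polygons meeting edge-to-edge, with edge-sharing polygons never coplanar, has its faces colourable with 4 colours so that faces sharing an edge get different colours. -/
theorem result :
    ¬ (∀ (n : ℕ) (S : Fin n → Finset (EuclideanSpace ℝ (Fin 3))),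
      (∀ i, Module.finrank ℝ
          (vectorSpan ℝ (convexHull ℝ (S i : Set (EuclideanSpace ℝ (Fin 3))))) = 2) →
      (∀ i j, i ≠ j →
          IsExposed ℝ (convexHull ℝ (S i : Set (EuclideanSpace ℝ (Fin 3))))
            (convexHull ℝ (S i : Set (EuclideanSpace ℝ (Fin 3))) ∩
              convexHull ℝ (S j : Set (EuclideanSpace ℝ (Fin 3)))) ∧
          IsExposed ℝ (convexHull ℝ (S j : Set (EuclideanSpace ℝ (Fin 3))))
            (convexHull ℝ (S i : Set (EuclideanSpace ℝ (Fin 3))) ∩
              convexHull ℝ (S j : Set (EuclideanSpace ℝ (Fin 3)))) ∧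
          Module.finrank ℝ (vectorSpan ℝ
            (convexHull ℝ (S i : Set (EuclideanSpace ℝ (Fin 3))) ∩
              convexHull ℝ (S j : Set (EuclideanSpace ℝ (Fin 3))))) ≤ 1) →
      (∀ i j, i ≠ j →
          Module.finrank ℝ (vectorSpan ℝ
            (convexHull ℝ (S i : Set (EuclideanSpace ℝ (Fin 3))) ∩
              convexHull ℝ (S j : Set (EuclideanSpace ℝ (Fin 3))))) = 1 →
          ¬ Coplanar ℝ (convexHull ℝ (S i : Set (EuclideanSpace ℝ (Fin 3))) ∪
              convexHull ℝ (S j : Set (EuclideanSpace ℝ (Fin 3))))) →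
      Nonempty (↥(⋃ i, convexHull ℝ (S i : Set (EuclideanSpace ℝ (Fin 3)))) ≃ₜ
          (AddCircle (1 : ℝ) × AddCircle (1 : ℝ))) →
      ∃ c : Fin n → Fin 4, ∀ i j, i ≠ j →
          Module.finrank ℝ (vectorSpan ℝ
            (convexHull ℝ (S i : Set (EuclideanSpace ℝ (Fin 3))) ∩
              convexHull ℝ (S j : Set (EuclideanSpace ℝ (Fin 3))))) = 1 →
          c i ≠ c j) := by
  intro hall
  obtain ⟨c, hc⟩ := hall 17 Pool.Agent.Lib.MP_cf103f_co.SF
    (fun i => by
      rw [Pool.Agent.Lib.MP_cf103f_co.vectorSpan_hull, Pool.Agent.Lib.MP_cf103f_co.coe_SF]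
      exact Pool.Agent.Lib.MP_cf103f_co.finrank_face i)
    (fun i j hij => by
      rw [Pool.Agent.Lib.MP_cf103f_co.hull_SF, Pool.Agent.Lib.MP_cf103f_co.hull_SF]
      refine ⟨Pool.Agent.Lib.MP_cf103f_co.exposed i j, ?_,
        Pool.Agent.Lib.MP_cf103f_co.finrank_le hij⟩
      rw [Set.inter_comm]
      exact Pool.Agent.Lib.MP_cf103f_co.exposed j i)
    (fun i j hij h => by
      rw [Pool.Agent.Lib.MP_cf103f_co.hull_SF, Pool.Agent.Lib.MP_cf103f_co.hull_SF] at h ⊢
      exact Pool.Agent.Lib.MP_cf103f_co.not_coplanar hij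
        (Pool.Agent.Lib.MP_cf103f_co.len_of_finrank hij h))
    ⟨Pool.Agent.Lib.MP_cf103f_co.torusHomeo⟩
  refine Pool.Agent.Lib.MP_cf103f_co.no_colouring c (fun i j hij hl => hc i j hij ?_)
  rw [Pool.Agent.Lib.MP_cf103f_co.hull_SF, Pool.Agent.Lib.MP_cf103f_co.hull_SF]
  exact Pool.Agent.Lib.MP_cf103f_co.finrank_of_len hij hl

end Pool.Agent.S11528
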