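import Pool.Statements.S11670
import Pool.Agent.Lib.MP_d3a5e5_coK.E4

set_option autoImplicit false
open Pool Pool.MP_d3a5e5_co

namespace Pool.Agent.S11670

/-- The negation of the preceding statement: For every connected, locally finite, vertex-transitive graph G: G is quasi-isometric to some planar graph if and only if G can be drawn in the plane so that each edge crosses at most k other edges, for some natural number k. -/
theorem result :
    ¬ (∀ (V : Type) (G : SimpleGraph V), G.Connected →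
      (∀ v : V, (G.neighborSet v).Finite) →
      (∀ u v : V, ∃ φ : G ≃g G, φ u = v) →
      ((∃ (W : Type) (H : SimpleGraph W), H.Connected ∧
          (∃ f : W → ℝ × ℝ, Function.Injective f ∧
            ∃ γ : W → W → C(unitInterval, ℝ × ℝ),
              (∀ u v : W, H.Adj u v →
                γ u v 0 = f u ∧ γ u v 1 = f v ∧ Function.Injective (γ u v) ∧
                (∀ t : unitInterval, γ v u t = γ u v (unitInterval.symm t)) ∧
                (∀ t : unitInterval, t ≠ 0 → t ≠ 1 → ∀ w : W, γ u v t ≠ f w)) ∧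
              (∀ u v : W, H.Adj u v →
                {e : Sym2 W | e ∈ H.edgeSet ∧ e ≠ s(u, v) ∧
                  ∃ x y : W, e = s(x, y) ∧ ∃ s t : unitInterval,
                    s ≠ 0 ∧ s ≠ 1 ∧ t ≠ 0 ∧ t ≠ 1 ∧ γ x y s = γ u v t}.encard
                  ≤ ((0 : ℕ) : ℕ∞))) ∧
          (∃ φ : V → W, ∃ M A : ℝ, 1 ≤ M ∧ 0 ≤ A ∧
            (∀ x y : V, (G.dist x y : ℝ) / M - A ≤ (H.dist (φ x) (φ y) : ℝ) ∧
              (H.dist (φ x) (φ y) : ℝ) ≤ M * (G.dist x y : ℝ) + A) ∧
            (∀ w : W, ∃ x : V, (H.dist w (φ x) : ℝ) ≤ A))) ↔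
        ∃ k : ℕ, ∃ f : V → ℝ × ℝ, Function.Injective f ∧
          ∃ γ : V → V → C(unitInterval, ℝ × ℝ),
            (∀ u v : V, G.Adj u v →
              γ u v 0 = f u ∧ γ u v 1 = f v ∧ Function.Injective (γ u v) ∧
              (∀ t : unitInterval, γ v u t = γ u v (unitInterval.symm t)) ∧
              (∀ t : unitInterval, t ≠ 0 → t ≠ 1 → ∀ w : V, γ u v t ≠ f w)) ∧
            (∀ u v : V, G.Adj u v →
              {e : Sym2 V | e ∈ G.edgeSet ∧ e ≠ s(u, v) ∧
                ∃ x y : V, e = s(x, y) ∧ ∃ s t : unitInterval,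
                  s ≠ 0 ∧ s ≠ 1 ∧ t ≠ 0 ∧ t ≠ 1 ∧ γ x y s = γ u v t}.encard
                ≤ (k : ℕ∞)))) := by
  intro hall
  obtain ⟨V, G, hc, hf, ht, hk, hq⟩ := KPl.main
  exact hq ((hall V G hc hf ht).mpr hk)

end Pool.Agent.S11670
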