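import Pool.Statements.S11813
import Pool.Agent.Lib.MP_dae418_co.Translate

set_option autoImplicit false
open Pool Pool.MP_dae418_co

namespace Pool.Agent.S11813

/-- There exist l, c>0 and e<2 such that every finite graph in which deleting any set X of at most l vertices leaves connectivity exactly k−∣X∣ has at most c·k^e vertices. -/
theorem result :
    ∃ l : ℕ, ∃ c : ℝ, 0 < c ∧ ∃ e : ℝ, e < 2 ∧
      ∀ (k : ℕ) (V : Type) [Fintype V] [DecidableEq V] (G : SimpleGraph V),
        (∀ X : Finset V, X.card ≤ l →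
          X.card ≤ k ∧
          (k - X.card < (Xᶜ).card ∧
            ∀ S : Finset V, S ⊆ Xᶜ → S.card < k - X.card →
              (G.induce (↑((X ∪ S)ᶜ) : Set V)).Connected) ∧
          ¬ (k - X.card + 1 < (Xᶜ).card ∧
            ∀ S : Finset V, S ⊆ Xᶜ → S.card < k - X.card + 1 →
              (G.induce (↑((X ∪ S)ᶜ) : Set V)).Connected)) →
        (Fintype.card V : ℝ) ≤ c * (k : ℝ) ^ e := by
  refine ⟨11, 8, by norm_num, 31 / 16, by norm_num, ?_⟩
  intro k V _ _ G h
  exact Pool.Agent.Lib.MP_dae418_co.final G h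

end Pool.Agent.S11813
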