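import Pool.Statements.S12316
import Pool.Agent.Lib.MP_efe8d0_co.WalkCyc
import Pool.Agent.Lib.MP_efe8d0_co.Low4
import Pool.Agent.Lib.MP_efe8d0_co.Conn

set_option autoImplicit false
open Pool Pool.MP_efe8d0_co

namespace Pool.Agent.S12316

/-- The negation of the preceding statement: In every finite graph with at least 3 vertices that stays connected after deleting any one vertex, there is a set of at most three vertices such that every longest cycle passes through one of them. -/
theorem result :
    ¬ (∀ (V : Type) [Fintype V] (G : SimpleGraph V),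
      3 ≤ Fintype.card V →
      (∀ v : V, (G.induce ({v}ᶜ : Set V)).Connected) →
      ∃ S : Finset V, S.card ≤ 3 ∧
        ∀ (u : V) (c : G.Walk u u), c.IsCycle →
          (∀ (w : V) (d : G.Walk w w), d.IsCycle → d.length ≤ c.length) →
          ∃ x ∈ S, x ∈ c.support) := by
  intro h
  obtain ⟨S, hS, hc⟩ := h Pool.Agent.MP_efe8d0_co.VT Pool.Agent.MP_efe8d0_co.G
    Pool.Agent.MP_efe8d0_co.VT_card Pool.Agent.MP_efe8d0_co.G_conn
  obtain ⟨v1, v2, v3, hv⟩ := Pool.Agent.MP_efe8d0_co.three_of_card S hS
  obtain ⟨u, c, hcyc, hlen, h1, h2, h3⟩ := Pool.Agent.MP_efe8d0_co.avoid v1 v2 v3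
  obtain ⟨x, hx, hxc⟩ := hc u c hcyc (fun w d hd => by
    rw [hlen]; exact Pool.Agent.MP_efe8d0_co.cycle_le d hd)
  rcases hv x hx with e | e | e
  · rw [e] at hxc; exact h1 hxc
  · rw [e] at hxc; exact h2 hxc
  · rw [e] at hxc; exact h3 hxc

end Pool.Agent.S12316
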