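import Pool.Statements.S12425
import Pool.Agent.Lib.MP_f599e5_co.Main
-- import your own Pool.Agent.* helpers here

set_option autoImplicit false
open Pool Pool.MP_f599e5_co

namespace Pool.Agent.S12425

/-- For every k ≥ 3, every finite nonempty simple graph in which each vertex has at least k neighbours contains a cycle whose length is divisible by k. -/
theorem result :
    ∀ k : ℕ, 3 ≤ k →
      ∀ (V : Type) [Finite V] [Nonempty V] (G : SimpleGraph V),
        (∀ v : V, k ≤ (G.neighborSet v).ncard) →
          ∃ (v : V) (p : G.Walk v v), p.IsCycle ∧ k ∣ p.length := by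
  intro k hk V _ _ G h
  exact Pool.Agent.Lib.MP_f599e5_co.dean hk V G h

end Pool.Agent.S12425
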