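import Pool.Statements.S12655
import Pool.Agent.Lib.MP_ffe3a0_co.Transfer

set_option autoImplicit false
open Pool Pool.MP_ffe3a0_co

namespace Pool.Agent.S12655

/-- For finitely many closed topological disks in the plane: if some tiling by isometric copies of them is invariant under a nonzero translation, then some tiling by such copies is invariant under two linearly independent translations. -/
theorem result :
  ∀ (n : ℕ) (P : Fin n → Set (EuclideanSpace ℝ (Fin 2))),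
    (∀ i, Nonempty (P i ≃ₜ Metric.closedBall (0 : EuclideanSpace ℝ (Fin 2)) 1)) →
    (∃ T : Set (Set (EuclideanSpace ℝ (Fin 2))),
      (∀ t ∈ T, ∃ i, ∃ g : EuclideanSpace ℝ (Fin 2) ≃ᵢ EuclideanSpace ℝ (Fin 2),
        t = g '' P i) ∧
      (⋃₀ T = Set.univ) ∧
      (∀ s ∈ T, ∀ t ∈ T, s ≠ t → Disjoint (interior s) (interior t)) ∧
      ∃ v : EuclideanSpace ℝ (Fin 2), v ≠ 0 ∧
        ∀ t : Set (EuclideanSpace ℝ (Fin 2)), t ∈ T ↔ (fun x => x + v) '' t ∈ T) →
    ∃ T : Set (Set (EuclideanSpace ℝ (Fin 2))),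
      (∀ t ∈ T, ∃ i, ∃ g : EuclideanSpace ℝ (Fin 2) ≃ᵢ EuclideanSpace ℝ (Fin 2),
        t = g '' P i) ∧
      (⋃₀ T = Set.univ) ∧
      (∀ s ∈ T, ∀ t ∈ T, s ≠ t → Disjoint (interior s) (interior t)) ∧
      ∃ u w : EuclideanSpace ℝ (Fin 2), LinearIndependent ℝ ![u, w] ∧
        (∀ t : Set (EuclideanSpace ℝ (Fin 2)), t ∈ T ↔ (fun x => x + u) '' t ∈ T) ∧
        (∀ t : Set (EuclideanSpace ℝ (Fin 2)), t ∈ T ↔ (fun x => x + w) '' t ∈ T) := by
  intro n P hP hex
  exact Pool.Agent.Lib.MP_ffe3a0_co.transfer n P hP hex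

end Pool.Agent.S12655
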