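import Pool.Statements.S12880
import Pool.Agent.Lib.MP_217de7_gt.Final

set_option autoImplicit false
open Pool Pool.MP_217de7_gt

namespace Pool.Agent.S12880

/-- The negation of the preceding statement: For every ε>0, in all large dimensions n, every centered zonoid in ℝⁿ whose polar is also a zonoid has a linear image squeezed between the unit ball and its (1+ε)-dilate, i.e. Banach–Mazur distance to the ball tends to 1. -/
theorem result :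
    ¬ (∀ ε : ℝ, 0 < ε → ∃ N : ℕ, ∀ n : ℕ, N ≤ n →
      ∀ Z : Set (EuclideanSpace ℝ (Fin n)),
        (Z.Nonempty ∧ IsCompact Z ∧
          ∀ δ : ℝ, 0 < δ → ∃ m : ℕ, ∃ v : Fin m → EuclideanSpace ℝ (Fin n),
            Metric.hausdorffDist Z
              {x | ∃ t : Fin m → ℝ, (∀ i, |t i| ≤ 1) ∧ x = ∑ i, t i • v i} < δ) →
        (({y | ∀ x ∈ Z, inner ℝ x y ≤ (1 : ℝ)} : Set (EuclideanSpace ℝ (Fin n))).Nonempty ∧
          IsCompact ({y | ∀ x ∈ Z, inner ℝ x y ≤ (1 : ℝ)} : Set (EuclideanSpace ℝ (Fin n))) ∧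
          ∀ δ : ℝ, 0 < δ → ∃ m : ℕ, ∃ v : Fin m → EuclideanSpace ℝ (Fin n),
            Metric.hausdorffDist
              ({y | ∀ x ∈ Z, inner ℝ x y ≤ (1 : ℝ)} : Set (EuclideanSpace ℝ (Fin n)))
              {x | ∃ t : Fin m → ℝ, (∀ i, |t i| ≤ 1) ∧ x = ∑ i, t i • v i} < δ) →
        ∃ T : EuclideanSpace ℝ (Fin n) ≃ₗ[ℝ] EuclideanSpace ℝ (Fin n),
          Metric.closedBall (0 : EuclideanSpace ℝ (Fin n)) 1 ⊆ T '' Z ∧
            T '' Z ⊆ Metric.closedBall (0 : EuclideanSpace ℝ (Fin n)) (1 + ε)) := by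
  intro H
  obtain ⟨N, hN⟩ := H (1 / 20) (by norm_num)
  have hn := hN (N + 2) (by omega)
  let i0 : Fin (N + 2) := 0
  let i1 : Fin (N + 2) := 1
  have h01 : i1 ≠ i0 := by
    intro h
    have := congrArg Fin.val h
    simp [i0, i1] at this
  have hK0 : (0 : EuclideanSpace ℝ (Fin (N + 2))) ∈ Lib.MP_217de7_gt.KK i0 := by
    change Lib.MP_217de7_gt.RI i0 Lib.MP_217de7_gt.u1 1 0 ≤ 1
    rw [Lib.MP_217de7_gt.RI_zero]; norm_num
  have hD0 : (0 : EuclideanSpace ℝ (Fin (N + 2))) ∈ Lib.MP_217de7_gt.DD i0 := by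
    change Lib.MP_217de7_gt.RI i0 Lib.MP_217de7_gt.u2 1 0 ≤ 1
    rw [Lib.MP_217de7_gt.RI_zero]; norm_num
  obtain ⟨T, hT1, hT2⟩ := hn (Lib.MP_217de7_gt.KK i0)
    ⟨⟨0, hK0⟩, Lib.MP_217de7_gt.KK_compact i0, Lib.MP_217de7_gt.KK_zonoid i0⟩
    (by
      rw [Lib.MP_217de7_gt.polar_KK i0]
      exact ⟨⟨0, hD0⟩, Lib.MP_217de7_gt.DD_compact i0, Lib.MP_217de7_gt.DD_zonoid i0⟩)
  exact Lib.MP_217de7_gt.KK_far h01 T hT1 hT2

end Pool.Agent.S12880
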