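import Pool.Statements.S13032
import Pool.Agent.Lib.MP_3a0f08_gt.Rec
import Pool.Agent.Lib.MP_3a0f08_gt.Padic
import Pool.Agent.Lib.MP_3a0f08_gt.Space

set_option autoImplicit false
open Pool Pool.MP_3a0f08_gt

namespace Pool.Agent.S13032

open Pool.Agent.Lib.MP_3a0f08_gt Cardinal

/-- The negation of the preceding statement: Every compact Hausdorff group whose left translations are continuous carries a Borel probability measure giving positive measure to every nonempty open set. -/
theorem result :
    ¬ (∀ (G : Type) [Group G] [TopologicalSpace G] [CompactSpace G] [T2Space G]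
      [MeasurableSpace G] [BorelSpace G],
      (∀ g : G, Continuous (fun x : G => g * x)) →
      ∃ μ : MeasureTheory.Measure G, MeasureTheory.IsProbabilityMeasure μ ∧
        ∀ U : Set G, IsOpen U → U.Nonempty → 0 < μ U) := by
  intro hall
  obtain ⟨W, NW⟩ := exists_nest (single fun _ => false)
  have hR : ℵ₀ < #ℤ_[2] := Cardinal.aleph0_lt_continuum.trans_le continuum_le_padic
  have hcard : #(XX × ZZ ℤ_[2]) ≤ #ℤ_[2] := by
    rw [Cardinal.mk_prod, Cardinal.lift_id, Cardinal.lift_id]
    exact Cardinal.mul_le_of_le hR.le (card_XX_le.trans continuum_le_padic) (card_ZZ_le hR.le)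
  obtain ⟨G, hfree, htrans⟩ := exists_group NW inest_I₂ (two_ne_zero) two_pow_mem hR
    (fun x => XX_homogeneous _ x) hcard
  set p₀ : XX × ZZ ℤ_[2] := (single fun _ => false, z₀ ℤ_[2]) with hp₀
  let ev : G → XX × ZZ ℤ_[2] := fun g => g.1.e p₀
  have hinj : Function.Injective ev := by
    intro g g' h
    have h1 : (g⁻¹ * g').1.e p₀ = p₀ := by
      change g.1.e.symm (g'.1.e p₀) = p₀
      have h : g.1.e p₀ = g'.1.e p₀ := h
      rw [← h, Homeomorph.symm_apply_apply]
    have h2 := hfree _ (g⁻¹ * g').2 _ h1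
    have h3 : g⁻¹ * g' = 1 := Subtype.ext h2
    exact inv_mul_eq_one.1 h3
  have hsurj : Function.Surjective ev := by
    intro p
    obtain ⟨g, hg, hgp⟩ := htrans p
    exact ⟨⟨g, hg⟩, hgp⟩
  letI tG : TopologicalSpace G := TopologicalSpace.induced ev inferInstance
  have hind : Topology.IsInducing ev := ⟨rfl⟩
  let φ : G ≃ₜ XX × ZZ ℤ_[2] :=
    (Equiv.ofBijective ev ⟨hinj, hsurj⟩).toHomeomorphOfIsInducing hind
  haveI : CompactSpace G := φ.symm.compactSpace
  haveI : T2Space G := φ.symm.t2Space
  letI : MeasurableSpace G := borel G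
  haveI : BorelSpace G := ⟨rfl⟩
  have hleft : ∀ g : G, Continuous (fun x : G => g * x) := by
    intro g
    rw [hind.continuous_iff]
    exact g.1.e.continuous.comp hind.continuous
  obtain ⟨μ, hμ, hpos⟩ := hall G hleft
  let U : Cn → Set G := fun c => ev ⁻¹' (Prod.fst ⁻¹' Set.range (cons c))
  have hUo : ∀ c, IsOpen (U c) := fun c =>
    ((isOpenEmbedding_cons c).isOpen_range.preimage continuous_fst).preimage hind.continuous
  have hUn : ∀ c, (U c).Nonempty := by
    intro c
    obtain ⟨g, hg⟩ := hsurj (cons c (single c), z₀ ℤ_[2])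
    refine ⟨g, ?_⟩
    change (ev g).1 ∈ Set.range (cons c)
    rw [hg]
    exact ⟨_, rfl⟩
  have hUd : Pairwise (Function.onFun Disjoint U) := by
    intro c d hcd
    exact ((cons_disjoint hcd).preimage _).preimage _
  have hcount := MeasureTheory.Measure.countable_meas_pos_of_disjoint_iUnion (μ := μ)
    (fun c => (hUo c).measurableSet) hUd
  have huniv : {c | 0 < μ (U c)} = Set.univ := by
    ext c
    simp [hpos (U c) (hUo c) (hUn c)]
  rw [huniv, ← Cardinal.le_aleph0_iff_set_countable, Cardinal.mk_univ] at hcount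
  have hCn : #Cn = 𝔠 := by simp [Cn]
  rw [hCn] at hcount
  exact absurd hcount (not_le.2 Cardinal.aleph0_lt_continuum)

end Pool.Agent.S13032
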