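import Pool.Statements.S13076
import Pool.Agent.Lib.MP_414e75_gt.Space
import Pool.Agent.Lib.MP_414e75_gt.Construct

set_option autoImplicit false
open Pool Pool.MP_414e75_gt

namespace Pool.Agent.S13076

/-- The negation of the preceding statement: Every regular T1 Lindelöf space is a D-space: for each assignment of an open neighborhood N(x) to every point x, some closed discrete set D has the sets N(d), d in D, covering the space. -/
theorem result :
    ¬ (∀ (X : Type) [TopologicalSpace X] [T1Space X] [RegularSpace X] [LindelofSpace X],
      ∀ N : X → Set X, (∀ x, IsOpen (N x) ∧ x ∈ N x) →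
        ∃ D : Set X, IsClosed D ∧ DiscreteTopology D ∧ (⋃ d ∈ D, N d) = Set.univ) := by
  exact Pool.Agent.Lib.MP_414e75_gt.not_D Pool.Agent.Lib.MP_414e75_gt.good

end Pool.Agent.S13076
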