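import Pool.Statements.S13551
-- import your own Pool.Agent.* helpers here
import Pool.Agent.Lib.MP_8da474_gt.Main

set_option autoImplicit false
open Pool Pool.MP_8da474_gt

namespace Pool.Agent.S13551

/-- There is a convex body in 3-space whose boundary surface has, in its intrinsic path metric, a unique farthest point from each point, with that map an involution, and whose farthest-point distance is not the same at all points. -/
theorem result :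
    ∃ (K : Set (EuclideanSpace ℝ (Fin 3)))
      (d : EuclideanSpace ℝ (Fin 3) → EuclideanSpace ℝ (Fin 3) → ENNReal),
      Convex ℝ K ∧ IsCompact K ∧ (interior K).Nonempty ∧
      (∀ x y, d x y =
        ⨅ (γ : ℝ → EuclideanSpace ℝ (Fin 3))
          (_ : ContinuousOn γ (Set.Icc (0:ℝ) 1) ∧ γ 0 = x ∧ γ 1 = y ∧
                ∀ t ∈ Set.Icc (0:ℝ) 1, γ t ∈ frontier K),
          eVariationOn γ (Set.Icc (0:ℝ) 1)) ∧
      (∀ x ∈ frontier K, ∃! y, y ∈ frontier K ∧ ∀ z ∈ frontier K, d x z ≤ d x y) ∧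
      (∀ x ∈ frontier K, ∀ y ∈ frontier K,
        (∀ z ∈ frontier K, d x z ≤ d x y) → ∀ w ∈ frontier K, d y w ≤ d y x) ∧
      (∃ x ∈ frontier K, ∃ y ∈ frontier K,
        (⨆ z ∈ frontier K, d x z) ≠ (⨆ z ∈ frontier K, d y z)) := by
  obtain ⟨h, hh, hh1⟩ : ∃ h : ℝ, 0 < h ∧ h ≤ 1/10^12 := ⟨1/10^12, by positivity, le_rfl⟩
  obtain ⟨ε, hεh⟩ : ∃ ε : ℝ, ε = h^2 := ⟨_, rfl⟩
  have hε0 : 0 < ε := by rw [hεh]; positivity
  have hε1 : ε ≤ 1/10^24 := by
    rw [hεh]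
    calc h^2 ≤ (1/10^12)^2 := by gcongr
      _ = 1/10^24 := by norm_num
  have hε : ε ≤ 1/1000 := hε1.trans (by norm_num)
  have fin := fun {x y : Lib.MP_8da474_gt.E3} (hx : x ∈ frontier (Lib.MP_8da474_gt.Kb ε))
    (hy : y ∈ frontier (Lib.MP_8da474_gt.Kb ε)) => Lib.MP_8da474_gt.R_fin hε0 hε hx hy
  have toR : ∀ {x y x' y' : Lib.MP_8da474_gt.E3}, x ∈ frontier (Lib.MP_8da474_gt.Kb ε) →
      y ∈ frontier (Lib.MP_8da474_gt.Kb ε) → x' ∈ frontier (Lib.MP_8da474_gt.Kb ε) →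
      y' ∈ frontier (Lib.MP_8da474_gt.Kb ε) →
      (Lib.MP_8da474_gt.dI (frontier (Lib.MP_8da474_gt.Kb ε)) x y ≤
        Lib.MP_8da474_gt.dI (frontier (Lib.MP_8da474_gt.Kb ε)) x' y' ↔
        Lib.MP_8da474_gt.R ε x y ≤ Lib.MP_8da474_gt.R ε x' y') := by
    intro x y x' y' hx hy hx' hy'
    unfold Lib.MP_8da474_gt.R
    exact (ENNReal.toReal_le_toReal (fin hx hy) (fin hx' hy')).symm
  refine ⟨Lib.MP_8da474_gt.Kb ε, Lib.MP_8da474_gt.dI (frontier (Lib.MP_8da474_gt.Kb ε)),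
    Lib.MP_8da474_gt.convex_Kb hε0.le hε, Lib.MP_8da474_gt.isCompact_Kb ε,
    Lib.MP_8da474_gt.zero_mem_interior ε, fun x y => rfl, ?_, ?_, ?_⟩
  · intro x hx
    obtain ⟨y, hy, hmax⟩ := Lib.MP_8da474_gt.exists_farthest hε0 hε hx
    have c : Lib.MP_8da474_gt.Ctx h ε x y := ⟨hh, hh1, hεh, hx, hy, hmax⟩
    refine ⟨y, ⟨hy, fun z hz => (toR hx hz hx hy).2 (hmax z hz)⟩, ?_⟩
    rintro y' ⟨hy', hmax'⟩
    by_contra hne
    have h1 := c.strict_end hy' hne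
    have h2 := (toR hx hy hx hy').1 (hmax' y hy)
    linarith
  · intro x hx y hy hmax w hw
    have hmaxR : ∀ z ∈ frontier (Lib.MP_8da474_gt.Kb ε),
        Lib.MP_8da474_gt.R ε x z ≤ Lib.MP_8da474_gt.R ε x y :=
      fun z hz => (toR hx hz hx hy).1 (hmax z hz)
    have c : Lib.MP_8da474_gt.Ctx h ε x y := ⟨hh, hh1, hεh, hx, hy, hmaxR⟩
    rw [toR hy hw hy hx]
    by_cases hne : w = x
    · rw [hne]
    · have h1 := c.strict_start hw hne
      rw [Lib.MP_8da474_gt.R_comm ε y w, Lib.MP_8da474_gt.R_comm ε y x]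
      exact h1.le
  · have hn : ‖-Lib.MP_8da474_gt.ax2‖ = 1 := by
      rw [norm_neg, Lib.MP_8da474_gt.norm_ax2]
    refine ⟨_, Lib.MP_8da474_gt.sig_mem hε0.le hε Lib.MP_8da474_gt.norm_ax0, _,
      Lib.MP_8da474_gt.sig_mem hε0.le hε Lib.MP_8da474_gt.norm_ax2, ?_⟩
    apply ne_of_lt
    have hq := Lib.MP_8da474_gt.sig_mem hε0.le hε hn
    have hup : (⨆ z ∈ frontier (Lib.MP_8da474_gt.Kb ε),
        Lib.MP_8da474_gt.dI (frontier (Lib.MP_8da474_gt.Kb ε))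
          (Lib.MP_8da474_gt.sig ε Lib.MP_8da474_gt.ax0) z) ≤
        ENNReal.ofReal (Real.pi - 159/1000 * ε) :=
      iSup₂_le fun z hz => Lib.MP_8da474_gt.R_ax0 hε0 hε1 hz
    have hlow := Lib.MP_8da474_gt.R_ax2 hh hh1 hεh
    have hlow2 : ENNReal.ofReal (Real.pi - 134/1000 * ε) ≤
        Lib.MP_8da474_gt.dI (frontier (Lib.MP_8da474_gt.Kb ε))
          (Lib.MP_8da474_gt.sig ε Lib.MP_8da474_gt.ax2)
          (Lib.MP_8da474_gt.sig ε (-Lib.MP_8da474_gt.ax2)) := by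
      rw [ENNReal.ofReal_le_iff_le_toReal
        (fin (Lib.MP_8da474_gt.sig_mem hε0.le hε Lib.MP_8da474_gt.norm_ax2) hq)]
      exact hlow
    have hpi := Real.pi_gt_three
    have hmid : ENNReal.ofReal (Real.pi - 159/1000 * ε) < ENNReal.ofReal (Real.pi - 134/1000 * ε) := by
      rw [ENNReal.ofReal_lt_ofReal_iff (by linarith)]
      linarith
    exact hup.trans_lt (hmid.trans_le (hlow2.trans (le_iSup₂_of_le _ hq le_rfl)))

end Pool.Agent.S13551
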