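import Pool.Statements.S13677
import Pool.Agent.Lib.MP_a014e7_gt.Metr

set_option autoImplicit false
open Pool Pool.MP_a014e7_gt

namespace Pool.Agent.S13677

/-- Every Hausdorff space locally homeomorphic to R^n, all of whose subspaces are normal, and which has a point-countable open cover that separates points in the T1 sense, is metrizable. -/
theorem result :
    ∀ (X : Type) [TopologicalSpace X] [T2Space X] (n : ℕ)
      [ChartedSpace (EuclideanSpace ℝ (Fin n)) X],
      (∀ s : Set X, NormalSpace s) →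
      (∃ 𝒰 : Set (Set X),
          (∀ U ∈ 𝒰, IsOpen U) ∧
          ⋃₀ 𝒰 = Set.univ ∧
          (∀ x : X, {U : Set X | U ∈ 𝒰 ∧ x ∈ U}.Countable) ∧
          (∀ x y : X, x ≠ y → ∃ U ∈ 𝒰, x ∈ U ∧ y ∉ U)) →
      TopologicalSpace.MetrizableSpace X := by
  intro X _ _ n _ hn h𝒰
  obtain ⟨𝒰, hopen, -, hpc, hsep⟩ := h𝒰
  have h1 : LocallyCompactSpace X := ChartedSpace.locallyCompactSpace (EuclideanSpace ℝ (Fin n)) X
  have h2 : LocallyConnectedSpace X :=
    ChartedSpace.locallyConnectedSpace (EuclideanSpace ℝ (Fin n)) X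
  exact Pool.Agent.Lib.MP_a014e7_gt.metrizable_main
    (fun x => (chartAt (EuclideanSpace ℝ (Fin n)) x).source)
    (fun x => (chartAt (EuclideanSpace ℝ (Fin n)) x).open_source)
    (fun x => mem_chart_source (EuclideanSpace ℝ (Fin n)) x)
    (fun x => (chartAt (EuclideanSpace ℝ (Fin n)) x).secondCountableTopology_source)
    (fun s _ => hn s) 𝒰 hopen hpc hsep

end Pool.Agent.S13677
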