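import Pool.Statements.S13699
import Pool.Agent.Lib.MP_a4f5e0_gt.Final

set_option autoImplicit false
open Pool Pool.MP_a4f5e0_gt

namespace Pool.Agent.S13699

/-- If a smooth complete Riemannian metric on the plane has, for each geodesic and each point off it, exactly one geodesic through the point missing it, then its distance is isometric to the Euclidean plane (i.e. the metric is flat). -/
theorem result :
    ∀ (g : EuclideanSpace ℝ (Fin 2) →
        EuclideanSpace ℝ (Fin 2) →L[ℝ] EuclideanSpace ℝ (Fin 2) →L[ℝ] ℝ)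
      (d : EuclideanSpace ℝ (Fin 2) → EuclideanSpace ℝ (Fin 2) → ℝ),
      (∀ n : ℕ, ContDiff ℝ n g) →
      (∀ x v w, g x v w = g x w v) →
      (∀ x v, v ≠ 0 → 0 < g x v v) →
      (∀ x y, d x y = sInf {L : ℝ | ∃ γ : ℝ → EuclideanSpace ℝ (Fin 2),
          ContDiff ℝ 1 γ ∧ γ 0 = x ∧ γ 1 = y ∧
          L = ∫ t in (0:ℝ)..1, Real.sqrt (g (γ t) (deriv γ t) (deriv γ t))}) →
      (∀ u : ℕ → EuclideanSpace ℝ (Fin 2),
          (∀ ε > 0, ∃ N : ℕ, ∀ m ≥ N, ∀ n ≥ N, d (u m) (u n) < ε) →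
          ∃ x, Filter.Tendsto u Filter.atTop (nhds x)) →
      (∀ γ : ℝ → EuclideanSpace ℝ (Fin 2),
          (∀ t : ℝ, ∃ ε > 0, ∀ s s' : ℝ, |s - t| < ε → |s' - t| < ε →
              d (γ s) (γ s') = |s - s'|) →
          ∀ p, p ∉ Set.range γ →
            ∃! S : Set (EuclideanSpace ℝ (Fin 2)),
              (∃ σ : ℝ → EuclideanSpace ℝ (Fin 2),
                  (∀ t : ℝ, ∃ ε > 0, ∀ s s' : ℝ, |s - t| < ε → |s' - t| < ε →
                      d (σ s) (σ s') = |s - s'|) ∧ Set.range σ = S) ∧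
              p ∈ S ∧ Disjoint S (Set.range γ)) →
      ∃ f : EuclideanSpace ℝ (Fin 2) → EuclideanSpace ℝ (Fin 2),
        Function.Bijective f ∧ ∀ x y, dist (f x) (f y) = d x y := by
  intro g d h1 h2 h3 hd hc hP
  have hg : PPF.Met g := ⟨h1, h2, h3⟩
  have hdd : d = PPF.dg g := by
    funext x y
    exact hd x y
  subst hdd
  exact PPF.main g hg hc hP

end Pool.Agent.S13699
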