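import Pool.Statements.S13768
import Pool.Agent.Lib.MP_b098a7_gt.Final

set_option autoImplicit false
open Topology Filter
open Pool Pool.MP_b098a7_gt
open Pool.Agent.Lib.MP_b098a7_gt

namespace Pool.Agent.S13768

/-- The negation of the preceding statement: If a complete geodesic metric space has, at every hinge, a limiting angle at least the Euclidean comparison angle, then its comparison angles at any point p toward any three other points sum to at most 2π (i.e. it is Alex(0)). -/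
theorem result :
    ¬ (∀ (X : Type) [MetricSpace X] [CompleteSpace X],
      (∀ x y : X, ∃ γ : ℝ → X, γ 0 = x ∧ γ (dist x y) = y ∧
        ∀ s ∈ Set.Icc (0:ℝ) (dist x y), ∀ t ∈ Set.Icc (0:ℝ) (dist x y),
          dist (γ s) (γ t) = |s - t|) →
      (∀ p x y : X, x ≠ p → y ≠ p →
        ∀ γ δ : ℝ → X,
          (γ 0 = p ∧ γ (dist p x) = x ∧
            ∀ s ∈ Set.Icc (0:ℝ) (dist p x), ∀ t ∈ Set.Icc (0:ℝ) (dist p x),
              dist (γ s) (γ t) = |s - t|) →
          (δ 0 = p ∧ δ (dist p y) = y ∧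
            ∀ s ∈ Set.Icc (0:ℝ) (dist p y), ∀ t ∈ Set.Icc (0:ℝ) (dist p y),
              dist (δ s) (δ t) = |s - t|) →
          ∃ α : ℝ,
            Filter.Tendsto
              (fun q : ℝ × ℝ =>
                Real.arccos ((dist p (γ q.1) ^ 2 + dist p (δ q.2) ^ 2
                    - dist (γ q.1) (δ q.2) ^ 2) /
                  (2 * dist p (γ q.1) * dist p (δ q.2))))
              (nhdsWithin (0:ℝ) (Set.Ioi 0) ×ˢ nhdsWithin (0:ℝ) (Set.Ioi 0))
              (nhds α) ∧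
            Real.arccos ((dist p x ^ 2 + dist p y ^ 2 - dist x y ^ 2) /
              (2 * dist p x * dist p y)) ≤ α) →
      ∀ p x₁ x₂ x₃ : X, x₁ ≠ p → x₂ ≠ p → x₃ ≠ p →
        Real.arccos ((dist p x₁ ^ 2 + dist p x₂ ^ 2 - dist x₁ x₂ ^ 2) /
            (2 * dist p x₁ * dist p x₂)) +
          Real.arccos ((dist p x₂ ^ 2 + dist p x₃ ^ 2 - dist x₂ x₃ ^ 2) /
            (2 * dist p x₂ * dist p x₃)) +
          Real.arccos ((dist p x₃ ^ 2 + dist p x₁ ^ 2 - dist x₃ x₁ ^ 2) /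
            (2 * dist p x₃ * dist p x₁)) ≤ 2 * Real.pi) := by
  intro H
  obtain ⟨A, hA, hfull⟩ := exists_full
  have : CompleteSpace (XS A) := (isClosed_XS A).completeSpace_coe
  have hgeo := exists_geodesic hfull
  have hseguniq : ∀ j k : A, j ≠ k → ∀ x y : XS A, x ∈ seg A j '' Set.Icc 0 1 →
      y ∈ seg A j '' Set.Icc 0 1 → x ∈ seg A k '' Set.Icc 0 1 → y ∈ seg A k '' Set.Icc 0 1 →
      x = y := by
    intro j k hjk x y h1 h2 h3 h4
    rw [mem_seg_iff] at h1 h2 h3 h4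
    exact Subtype.ext (hA.uniq j.1 j.2 k.1 k.2 (fun h => hjk (Subtype.ext h)) _ _ h1 h2 h3 h4)
  have hsegdeg : ∀ x y z : XS A, x ≠ y → y ≠ z → dist x y + dist y z = dist x z →
      ∃ j, x ∈ seg A j '' Set.Icc 0 1 ∧ y ∈ seg A j '' Set.Icc 0 1 ∧
        z ∈ seg A j '' Set.Icc 0 1 := by
    intro x y z hxy hyz he
    obtain ⟨j, hj, h1, h2, h3⟩ := hA.deg x x.2 y y.2 z z.2 (fun h => hxy (Subtype.ext h))
      (fun h => hyz (Subtype.ext h)) he
    exact ⟨⟨j, hj⟩, (mem_seg_iff _ _).2 h1, (mem_seg_iff _ _).2 h2, (mem_seg_iff _ _).2 h3⟩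
  have hsegjoin : ∀ x y : XS A, x ≠ y →
      ∃ j, x ∈ seg A j '' Set.Icc 0 1 ∧ y ∈ seg A j '' Set.Icc 0 1 := by
    intro x y hxy
    obtain ⟨j, hj, h1, h2⟩ := hfull x x.2 y y.2 (fun h => hxy (Subtype.ext h))
    exact ⟨⟨j, hj⟩, (mem_seg_iff _ _).2 h1, (mem_seg_iff _ _).2 h2⟩
  have hconc := H (XS A) hgeo (fun p x y hx hy γ δ hγ hδ =>
    hinge_of_segments (seg A) (fun j s hs t ht => seg_dist j hs ht) seg_affine hsegjoin hseguniq
      hsegdeg p x y hx hy γ δ hγ hδ)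
  -- the constants
  let c : Fin 3 → XS A := fun i => ⟨cs i, Gen_subset_XS A (cs_mem_Gen A i)⟩
  have hc : ∀ i k : Fin 3, i ≠ k → dist (c i) (c k) = 1 := fun i k h => dist_cs h
  have hmid : ∀ x y : XS A, ∃ m : XS A, dist x m = dist x y / 2 ∧ dist m y = dist x y / 2 := by
    intro x y
    obtain ⟨γ, h0, h1, hiso⟩ := hgeo x y
    have hd : 0 ≤ dist x y := dist_nonneg
    have m0 : (0:ℝ) ∈ Set.Icc (0:ℝ) (dist x y) := ⟨le_rfl, hd⟩
    have m1 : dist x y ∈ Set.Icc (0:ℝ) (dist x y) := ⟨hd, le_rfl⟩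
    have m2 : dist x y / 2 ∈ Set.Icc (0:ℝ) (dist x y) := ⟨by linarith, by linarith⟩
    refine ⟨γ (dist x y / 2), ?_, ?_⟩
    · have := hiso 0 m0 _ m2
      rw [h0] at this
      rw [this, zero_sub, abs_neg, abs_of_nonneg (by linarith)]
    · have := hiso _ m2 _ m1
      rw [h1] at this
      rw [this, abs_of_nonpos (by linarith)]; ring
  obtain ⟨p, hp0, hp1⟩ := hmid (c 0) (c 1)
  rw [hc 0 1 (by decide)] at hp0 hp1
  obtain ⟨z, hz0, hz1⟩ := hmid p (c 2)
  -- distance from the midpoint to the third constant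
  have hp2 : dist p (c 2) = 1 := by
    have hdeg : dist (c 0) p + dist p (c 1) = dist (c 0) (c 1) := by
      rw [hp0, hp1, hc 0 1 (by decide)]; norm_num
    exact dist_mid_const hdeg
  rw [hp2] at hz0 hz1
  have hv : dist (c 0) z + dist (c 1) z = 3/2 := by
    exact (violation (p := (p : MM)) (z := (z : MM)) (by rw [dist_comm]; exact hp0) hp1 hz0 hz1).1
  have ha1 : dist (c 0) z ≤ 1 := dist_le_one _ _
  have hb1 : dist (c 1) z ≤ 1 := dist_le_one _ _
  have hne0 : c 0 ≠ p := by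
    intro h; rw [h, dist_self] at hp0; norm_num at hp0
  have hne1 : c 1 ≠ p := by
    intro h; rw [h, dist_self] at hp1; norm_num at hp1
  have hne2 : z ≠ p := by
    intro h; rw [h, dist_self] at hz0; norm_num at hz0
  have hfin := hconc p (c 0) (c 1) z hne0 hne1 hne2
  rw [dist_comm p (c 0), hp0, hp1, hc 0 1 (by decide), hz0, dist_comm z (c 0)] at hfin
  have := angle_sum (a := dist (c 0) z) (b := dist (c 1) z) dist_nonneg dist_nonneg ha1 hb1 hv
  linarith

end Pool.Agent.S13768
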