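import Pool.Statements.S14389
import Pool.Agent.Lib.MP_106261_lc.Sentence

set_option autoImplicit false
open Pool Pool.MP_106261_lc

namespace Pool.Agent.S14389

/-- For distinct positive n and m, a free lattice-ordered group on n generators and one on m generators are not elementarily equivalent in the first-order language of lattice-ordered groups (1, product, inverse, join). -/
theorem result :
    ∀ (n m : ℕ), 0 < n → 0 < m → n ≠ m →
    ∀ (G : Type) [Group G] [Lattice G] [MulLeftMono G] [MulRightMono G] (ιG : Fin n → G),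
    (∀ (K : Type) [Group K] [Lattice K] [MulLeftMono K] [MulRightMono K] (f : Fin n → K),
      ∃! φ : G →* K, (∀ a b : G, φ (a ⊔ b) = φ a ⊔ φ b) ∧ (∀ a b : G, φ (a ⊓ b) = φ a ⊓ φ b) ∧
        ∀ i, φ (ιG i) = f i) →
    ∀ (H : Type) [Group H] [Lattice H] [MulLeftMono H] [MulRightMono H] (ιH : Fin m → H),
    (∀ (K : Type) [Group K] [Lattice K] [MulLeftMono K] [MulRightMono K] (f : Fin m → K),
      ∃! φ : H →* K, (∀ a b : H, φ (a ⊔ b) = φ a ⊔ φ b) ∧ (∀ a b : H, φ (a ⊓ b) = φ a ⊓ φ b) ∧
        ∀ i, φ (ιH i) = f i) →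
    ¬ @FirstOrder.Language.ElementarilyEquivalent
        (FirstOrder.Language.mk (fun _ => Fin 3) (fun _ => Empty)) G H
        { funMap := fun {k} (i : Fin 3) (x : Fin k → G) =>
            if i = 0 then (List.ofFn x).prod
            else if i = 1 then ((List.ofFn x).prod)⁻¹
            else (List.ofFn x).getD 0 1 ⊔ (List.ofFn x).getD 1 1,
          RelMap := fun {k} (r : Empty) (_ : Fin k → G) => r.elim }
        { funMap := fun {k} (i : Fin 3) (x : Fin k → H) =>
            if i = 0 then (List.ofFn x).prod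
            else if i = 1 then ((List.ofFn x).prod)⁻¹
            else (List.ofFn x).getD 0 1 ⊔ (List.ofFn x).getD 1 1,
          RelMap := fun {k} (r : Empty) (_ : Fin k → H) => r.elim } := by
  intro n m hn hm hnm G _ _ _ _ ιG hG H _ _ _ _ ιH hH hequiv
  rcases lt_or_gt_of_ne hnm with h | h
  · exact Pool.Agent.Lib.MP_106261_lc.not_equiv_of_lt hn h (ιG := ιG) (ιH := ιH) hG hH hequiv
  · exact Pool.Agent.Lib.MP_106261_lc.not_equiv_of_lt hm h (ιG := ιH) (ιH := ιG) hH hG (Eq.symm hequiv)

end Pool.Agent.S14389
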