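import Pool.Statements.S15258
import Pool.Agent.Lib.MP_b4537c_lc.Base
import Pool.Agent.Lib.MP_b4537c_lc.TM0Sim
import Pool.Agent.Lib.MP_b4537c_lc.Assemble

set_option autoImplicit false
open Pool Pool.MP_b4537c_lc

namespace Pool.Agent.S15258

/-- The negation of the preceding statement: There is a computable procedure that, given two elementary homomorphisms from an n-letter alphabet to words over ℕ, outputs a finite automaton accepting exactly the words on which the two homomorphisms agree. -/
theorem result :
    ¬ (∃ F : List (List ℕ) × List (List ℕ) → List (List ℕ) × List ℕ,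
      Computable F ∧
      ∀ G H : List (List ℕ),
        G.length = H.length →
        (¬ ∃ m : ℕ, m < G.length ∧ ∃ f : Fin G.length → List (Fin m),
            ∃ g : Fin m → List ℕ, ∀ i : Fin G.length, (f i).flatMap g = G.getD i.val []) →
        (¬ ∃ m : ℕ, m < H.length ∧ ∃ f : Fin H.length → List (Fin m),
            ∃ g : Fin m → List ℕ, ∀ i : Fin H.length, (f i).flatMap g = H.getD i.val []) →
        ∀ w : List ℕ, (∀ a ∈ w, a < G.length) →
          (w.foldl (fun q a => ((F (G, H)).1.getD q []).getD a 0) 0 ∈ (F (G, H)).2 ↔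
            w.flatMap (fun a => G.getD a []) = w.flatMap (fun a => H.getD a []))) := by
  obtain ⟨Γ, Λ, i1, i2, i3, i4, i5, i6, M, inp, h1, h2⟩ :=
    Pool.Agent.ElemPCP.exists_undecidable_TM0
  obtain ⟨R, c0, τ0, sym, post, h3, h4, h5⟩ := Pool.Agent.ElemPCP.exists_RIM_of_TM0 M
  refine Pool.Agent.ElemPCP.no_algorithm_of_rim R c0 τ0 h3 h4 sym post inp h1
    (fun n => (h5 (inp n)).1) ?_
  intro h
  exact h2 (h.of_eq fun n => (h5 (inp n)).2)

end Pool.Agent.S15258
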