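import Pool.Statements.S15329
import Pool.Agent.Lib.MP_c4588b_lc.Main

set_option autoImplicit false
open Pool Pool.MP_c4588b_lc

namespace Pool.Agent.S15329

/-- For every k ≥ 1 and real periods a_1..a_k ≥ 1 with sum of 1/a_i at most 5/6, some map S from the integers to the k tasks makes each task i occur at least l times in every window of ceil(l·a_i) consecutive integers, for all l ≥ 1. -/
theorem result :
    ∀ k : ℕ, 0 < k → ∀ a : Fin k → ℝ, (∀ i, 1 ≤ a i) →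
      (∑ i, 1 / a i) ≤ (5 / 6 : ℝ) →
      ∃ S : ℤ → Fin k, ∀ i : Fin k, ∀ l : ℕ, 1 ≤ l → ∀ m : ℤ,
        l ≤ ((Finset.Ico m (m + ⌈(l : ℝ) * a i⌉)).filter (fun t => S t = i)).card := by
  intro k hk a ha hD
  have : Nonempty (Fin k) := ⟨⟨0, hk⟩⟩
  obtain ⟨S, hS⟩ := Pool.Agent.PW.schOn_of_density (Finset.univ : Finset (Fin k)) a
    Finset.univ_nonempty (fun i _ => ha i) hD
  refine ⟨S, fun i l hl m => ?_⟩
  have hnn : (0 : ℝ) ≤ (l : ℝ) * a i := mul_nonneg (Nat.cast_nonneg l) (by linarith [ha i])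
  have hceil : (0 : ℤ) ≤ ⌈(l : ℝ) * a i⌉ := Int.ceil_nonneg hnn
  have h1 := hS i (Finset.mem_univ i) l m (⌈(l : ℝ) * a i⌉).toNat (by
    have h2 : (((⌈(l : ℝ) * a i⌉).toNat : ℤ) : ℝ) = (⌈(l : ℝ) * a i⌉ : ℝ) := by
      rw [Int.toNat_of_nonneg hceil]
    have h3 : (((⌈(l : ℝ) * a i⌉).toNat : ℕ) : ℝ) = (⌈(l : ℝ) * a i⌉ : ℝ) := by
      rw [← h2]; push_cast; rfl
    rw [h3]
    exact Int.le_ceil _)
  rw [Pool.Agent.PW.cnt_eq_card, Int.toNat_of_nonneg hceil] at h1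
  refine le_trans h1 (le_of_eq ?_)
  congr 1
  ext t
  simp only [Finset.mem_filter]

end Pool.Agent.S15329
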