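import Pool.Statements.S17009
import Pool.Agent.Lib.MP_570bef_ntLC.Fin

set_option autoImplicit false
open Pool Pool.MP_570bef_nt

namespace Pool.Agent.S17009

/-- For every k ≥ 1 there is N such that every integer n ≥ N is a sum of at most 100k k-th powers of natural numbers (zero terms allowed). -/
theorem result :
    ∀ k : ℕ, 1 ≤ k → ∃ N : ℕ, ∀ n : ℕ, N ≤ n →
      ∃ x : Fin (100 * k) → ℕ, ∑ i, x i ^ k = n := by
  exact Pool.Agent.Lib.MP_570bef_ntLC.waring

end Pool.Agent.S17009
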