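-- Proof of the frozen statement S17115 (MP_5e4520_nt, Q1, the problem).
import Pool.Statements.S17115
import Pool.Agent.Lib.MP_5e4520_ntE.Fin

set_option autoImplicit false
open scoped MeasureTheory
open Pool Pool.MP_5e4520_nt

namespace Pool.Agent.S17115

/-- For almost every (x1,x2) in the plane and every (g1,g2), some constant C satisfies q·log q·‖qx1−g1‖·‖qx2−g2‖ ≤ C for infinitely many natural numbers q, where ‖·‖ is distance to the nearest integer. -/
theorem result :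
    ∀ᵐ x : ℝ × ℝ ∂MeasureTheory.volume, ∀ γ : ℝ × ℝ, ∃ C : ℝ, ∀ N : ℕ, ∃ q : ℕ, N ≤ q ∧
      (q : ℝ) * Real.log (q : ℝ)
        * |(q : ℝ) * x.1 - γ.1 - ((round ((q : ℝ) * x.1 - γ.1) : ℤ) : ℝ)|
        * |(q : ℝ) * x.2 - γ.2 - ((round ((q : ℝ) * x.2 - γ.2) : ℤ) : ℝ)| ≤ C :=
  MP_5e4520_nt.Ex.final_exact

end Pool.Agent.S17115
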