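import Pool.Statements.S17881
import Pool.Agent.Lib.MP_9c2ea5_nt.Final

set_option autoImplicit false
open Pool Pool.MP_9c2ea5_nt

namespace Pool.Agent.S17881

/-- For every natural number a there exist natural numbers x > y > a such that both x+y+1 and xy+1 are prime, i.e. x+y and xy are both one less than a prime. -/
theorem result :
    ∀ a : ℕ, ∃ x y : ℕ, x > y ∧ y > a ∧ (x + y + 1).Prime ∧ (x * y + 1).Prime := by
  exact Pool.Agent.Lib.MP_9c2ea5_nt.final

end Pool.Agent.S17881
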